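import Pool.Agent.Lib.MP_dd84fd_nt.KX.Defs

/-!
# Theorem K: values of the type functions (helper63)

`TyK`: hypotheses on a type without window set and on the parameters; they imply at most three boxes, all
larger than `b - 1`.
-/

set_option autoImplicit false

namespace Pool.MP_dd84fd_nt.KX

open Finset Pool.MP_dd84fd_nt.HX Pool.MP_dd84fd_nt.IY

/-- hypotheses on the parameters -/
structure ParK (κ x a b w l : ℝ) : Prop where
  hl : 1 ≤ l
  hκ : 11 * κ ≤ 1
  ha : 0 < a
  h4b : x + 60 * l + 60 ≤ 4 * b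
  h2b : x / 2 + 30 * l + 30 ≤ 2 * b
  h3b : 3 * b + 60 * l + 60 ≤ x
  hw : 2 * w + 12 * l + 2 ≤ x + b
  hwx : w + 30 * l + 30 ≤ x
  hxw : x / 2 + 30 * l + 30 ≤ w

/-- hypotheses on a type -/
structure TyK (v : ℕ → ℝ) (κ x a b w l : ℝ) (T : Finset ℕ) : Prop where
  par : ParK κ x a b w l
  lo : x - 6 * l ≤ sg v T
  up : sg v T ≤ x
  ha : ∀ j ∈ T, a < v j
  hg : ¬ gdT v κ a b T

theorem sg_one (v : ℕ → ℝ) (p : ℕ) : sg v {p} = v p := by
  simp [sg]

theorem sg_two (v : ℕ → ℝ) {p q : ℕ} (h : p ≠ q) : sg v {p, q} = v p + v q := by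
  simp [sg, h]

theorem sg_three (v : ℕ → ℝ) {p q r : ℕ} (h1 : p ≠ q) (h2 : p ≠ r) (h3 : q ≠ r) :
    sg v {p, q, r} = v p + v q + v r := by
  unfold sg
  rw [Finset.sum_insert (by simp [h1, h2]), Finset.sum_insert (by simp [h3]),
    Finset.sum_singleton]
  ring

variable {v : ℕ → ℝ} {κ x a b w l : ℝ} {T : Finset ℕ}

theorem TyK.box (h : TyK v κ x a b w l T) {j : ℕ} (hj : j ∈ T) : b - 1 < v j := by
  by_contra hc
  push Not at hc
  apply h.hg
  refine ⟨{j}, by simpa using hj, ?_, ?_⟩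
  · rw [sg_one]
    exact h.ha j hj
  · rw [sg_one]
    linarith [h.par.hκ]

theorem TyK.card_mul (h : TyK v κ x a b w l T) : (T.card : ℝ) * (b - 1) ≤ x := by
  have h1 : ∑ j ∈ T, (b - 1) ≤ sg v T := Finset.sum_le_sum fun j hj => (h.box hj).le
  rw [Finset.sum_const, nsmul_eq_mul] at h1
  exact h1.trans h.up

theorem TyK.card_le (h : TyK v κ x a b w l T) : T.card ≤ 3 := by
  by_contra hc
  have hc' : 4 ≤ T.card := by omega
  have h1 := h.card_mul
  have h2 : (4 : ℝ) ≤ T.card := by exact_mod_cast hc'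
  have h3 := h.par.h4b
  have h4 := h.par.h3b
  have h5 := h.par.hl
  have h6 : 0 ≤ b - 1 := by
    by_contra h7
    push Not at h7
    have h8 := h.par.h2b
    linarith
  nlinarith

theorem TyK.card_pos (h : TyK v κ x a b w l T) : 1 ≤ T.card := by
  by_contra hc
  have hc' : T = ∅ := Finset.card_eq_zero.1 (by omega)
  have h1 := h.lo
  rw [hc'] at h1
  simp only [sg, Finset.sum_empty] at h1
  have h3 := h.par.h3b
  have h4 := h.par.h4b
  have h5 := h.par.hl
  linarith

/-! ### Sums over the subsets -/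

theorem psum1 (f : Finset ℕ → ℝ) (p : ℕ) : ∑ S ∈ ({p} : Finset ℕ).powerset, f S =
    f ∅ + f {p} := by
  have h : ({p} : Finset ℕ) = insert p ∅ := by simp
  rw [h, Finset.sum_powerset_insert (by simp)]
  simp

theorem psum2 (f : Finset ℕ → ℝ) {p q : ℕ} (h : p ≠ q) :
    ∑ S ∈ ({p, q} : Finset ℕ).powerset, f S = f ∅ + f {p} + f {q} + f {p, q} := by
  rw [Finset.sum_powerset_insert (by simp [h]), psum1 f q, psum1 (fun S => f (insert p S)) q]
  simp only [insert_empty_eq]
  ring

theorem psum3 (f : Finset ℕ → ℝ) {p q r : ℕ} (h1 : p ≠ q) (h2 : p ≠ r) (h3 : q ≠ r) :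
    ∑ S ∈ ({p, q, r} : Finset ℕ).powerset, f S =
      f ∅ + f {p} + f {q} + f {r} + f {p, q} + f {p, r} + f {q, r} + f {p, q, r} := by
  rw [Finset.sum_powerset_insert (by simp [h1, h2]), psum2 f h3,
    psum2 (fun S => f (insert p S)) h3]
  simp only [insert_empty_eq]
  ring

/-! ### Values of the weights -/

theorem lamR_0 (v : ℕ → ℝ) (x w l : ℝ) : lamR v x w l ∅ = 1 := by simp [lamR]

theorem lamR_1 (v : ℕ → ℝ) (x w l : ℝ) (p : ℕ) :
    lamR v x w l {p} = if v p ≤ x / 2 + 6 * l then -1 else 0 := by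
  simp [lamR, sg_one]

theorem lamR_2 (v : ℕ → ℝ) (x w l : ℝ) {p q : ℕ} (h : p ≠ q) :
    lamR v x w l {p, q} = if v p + v q ≤ w then 2 else 0 := by
  unfold lamR
  rw [Finset.card_pair h, sg_two v h]
  simp

theorem lamR_3 (v : ℕ → ℝ) (x w l : ℝ) {p q r : ℕ} (h1 : p ≠ q) (h2 : p ≠ r) (h3 : q ≠ r) :
    lamR v x w l {p, q, r} = 0 := by
  unfold lamR
  have h : ({p, q, r} : Finset ℕ).card = 3 := by
    rw [Finset.card_insert_of_notMem (by simp [h1, h2]), Finset.card_pair h3]
  rw [h]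
  simp

theorem lamE_0 (v : ℕ → ℝ) (x b w l : ℝ) : lamE v x b w l ∅ = 0 := by simp [lamE]

theorem lamE_1 (v : ℕ → ℝ) (x b w l : ℝ) (p : ℕ) :
    lamE v x b w l {p} = vE x b w l (v p) + (if |v p - x / 2| ≤ 20 * l then 1 else 0) := by
  simp [lamE, sg_one]

theorem lamE_2 (v : ℕ → ℝ) (x b w l : ℝ) {p q : ℕ} (h : p ≠ q) :
    lamE v x b w l {p, q} =
      if v p + v q ≤ w then - (vE x b w l (v p) + vE x b w l (v q)) else 0 := by
  unfold lamE
  rw [Finset.card_pair h, sg_two v h, Finset.sum_pair h]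
  simp

theorem lamE_3 (v : ℕ → ℝ) (x b w l : ℝ) {p q r : ℕ} (h1 : p ≠ q) (h2 : p ≠ r) (h3 : q ≠ r) :
    lamE v x b w l {p, q, r} = 0 := by
  unfold lamE
  have h : ({p, q, r} : Finset ℕ).card = 3 := by
    rw [Finset.card_insert_of_notMem (by simp [h1, h2]), Finset.card_pair h3]
  rw [h]
  simp

theorem vE_nonneg {x b : ℝ} (w l u : ℝ) (h : 3 * b ≤ x) : 0 ≤ vE x b w l u := by
  unfold vE
  split_ifs
  · have h1 : 0 ≤ x - 3 * b := by linarith
    positivity
  · exact le_rfl

theorem vE_eq {x b w l u : ℝ} (h : u ≤ x - w) (h' : 0 ≤ u - b + 2 * l + 1) :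
    vE x b w l u = 2 * (u - b + 2 * l + 1) / (x - 3 * b) := by
  unfold vE
  rw [if_pos h, max_eq_right h']

theorem vE_zero {x b w l u : ℝ} (h : x - w < u) : vE x b w l u = 0 := by
  unfold vE
  rw [if_neg (not_le.2 h)]

/-- `|u - x/2| ≤ 20 l` as a real number -/
noncomputable def nr (x l u : ℝ) : ℝ := if |u - x / 2| ≤ 20 * l then 1 else 0

theorem nr_nonneg (x l u : ℝ) : 0 ≤ nr x l u := by
  unfold nr
  split_ifs <;> norm_num

/-! ### Values of the type functions -/

/-- one box -/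
theorem TyK.val1 (h : TyK v κ x a b w l T) (hc : T.card = 1) :
    ∑ S ∈ T.powerset, lamR v x w l S = 1 ∧ ∑ S ∈ T.powerset, lamE v x b w l S = 0 := by
  obtain ⟨p, rfl⟩ := Finset.card_eq_one.1 hc
  have h1 := h.lo
  rw [sg_one] at h1
  obtain ⟨g1, g2, g3, g4, g5, g6, g7, g8, g9⟩ := h.par
  rw [psum1, psum1, lamR_0, lamR_1, lamE_0, lamE_1]
  have e1 : ¬ v p ≤ x / 2 + 6 * l := by
    intro h2
    linarith
  have e2 : ¬ |v p - x / 2| ≤ 20 * l := by
    intro h2
    have := (abs_le.1 h2).2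
    linarith
  rw [if_neg e1, if_neg e2, vE_zero (by linarith)]
  norm_num

/-- two boxes -/
theorem TyK.val2 (h : TyK v κ x a b w l T) {p q : ℕ} (hpq : p ≠ q) (hT : T = {p, q}) :
    ∑ S ∈ T.powerset, lamR v x w l S =
        1 + (if v p ≤ x / 2 + 6 * l then -1 else 0) + (if v q ≤ x / 2 + 6 * l then -1 else 0) ∧
      ∑ S ∈ T.powerset, lamE v x b w l S =
        vE x b w l (v p) + nr x l (v p) + (vE x b w l (v q) + nr x l (v q)) := by
  subst hT
  have h1 := h.lo
  rw [sg_two v hpq] at h1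
  obtain ⟨g1, g2, g3, g4, g5, g6, g7, g8, g9⟩ := h.par
  have e1 : ¬ v p + v q ≤ w := by
    intro h2
    linarith
  rw [psum2 _ hpq, psum2 _ hpq, lamR_0, lamR_1, lamR_1, lamR_2 v x w l hpq, lamE_0, lamE_1,
    lamE_1, lamE_2 v x b w l hpq, if_neg e1, if_neg e1]
  unfold nr
  constructor
  · ring
  · ring

/-- three boxes: the boxes are small -/
theorem TyK.small (h : TyK v κ x a b w l T) (hc : T.card = 3) {j : ℕ} (hj : j ∈ T) :
    v j < x / 2 - 28 * l - 28 := by
  have h1 : sg v (T.erase j) + v j = sg v T := by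
    unfold sg
    exact Finset.sum_erase_add _ _ hj
  have h2 : ∑ i ∈ T.erase j, (b - 1) ≤ sg v (T.erase j) :=
    Finset.sum_le_sum fun i hi => (h.box (Finset.mem_of_mem_erase hi)).le
  rw [Finset.sum_const, nsmul_eq_mul, Finset.card_erase_of_mem hj, hc] at h2
  have h3 := h.par.h2b
  have h4 := h.up
  have h5 := h.par.hl
  push_cast at h2
  norm_num at h2
  linarith

/-- three boxes -/
theorem TyK.val3 (h : TyK v κ x a b w l T) {p q r : ℕ} (h1 : p ≠ q) (h2 : p ≠ r) (h3 : q ≠ r)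
    (hT : T = {p, q, r}) :
    ∑ S ∈ T.powerset, lamR v x w l S = -2 + (if v p + v q ≤ w then 2 else 0) +
        (if v p + v r ≤ w then 2 else 0) + (if v q + v r ≤ w then 2 else 0) ∧
      ∑ S ∈ T.powerset, lamE v x b w l S =
        vE x b w l (v p) + vE x b w l (v q) + vE x b w l (v r) -
        (if v p + v q ≤ w then vE x b w l (v p) + vE x b w l (v q) else 0) -
        (if v p + v r ≤ w then vE x b w l (v p) + vE x b w l (v r) else 0) -
        (if v q + v r ≤ w then vE x b w l (v q) + vE x b w l (v r) else 0) := by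
  have hc : T.card = 3 := by
    rw [hT, Finset.card_insert_of_notMem (by simp [h1, h2]), Finset.card_pair h3]
  have hp := h.small hc (j := p) (by rw [hT]; simp)
  have hq := h.small hc (j := q) (by rw [hT]; simp)
  have hr := h.small hc (j := r) (by rw [hT]; simp)
  subst hT
  obtain ⟨g1, g2, g3, g4, g5, g6, g7, g8, g9⟩ := h.par
  have near : ∀ u : ℝ, u < x / 2 - 28 * l - 28 → ¬ |u - x / 2| ≤ 20 * l := by
    intro u hu h4
    have := (abs_le.1 h4).1
    linarith
  rw [psum3 _ h1 h2 h3, psum3 _ h1 h2 h3, lamR_0, lamR_1, lamR_1, lamR_1, lamR_2 v x w l h1,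
    lamR_2 v x w l h2, lamR_2 v x w l h3, lamR_3 v x w l h1 h2 h3, lamE_0, lamE_1, lamE_1, lamE_1,
    lamE_2 v x b w l h1, lamE_2 v x b w l h2, lamE_2 v x b w l h3, lamE_3 v x b w l h1 h2 h3,
    if_neg (near _ hp), if_neg (near _ hq), if_neg (near _ hr),
    if_pos (show v p ≤ x / 2 + 6 * l by linarith), if_pos (show v q ≤ x / 2 + 6 * l by linarith),
    if_pos (show v r ≤ x / 2 + 6 * l by linarith)]
  constructor
  · ring
  · split_ifs <;> ring

/-- at most one pair is allowed -/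
theorem TyK.one_pair (h : TyK v κ x a b w l T) {p q r : ℕ} (h1 : p ≠ q) (h2 : p ≠ r) (h3 : q ≠ r)
    (hT : T = {p, q, r}) (hpq : v p + v q ≤ w) : w < v p + v r ∧ w < v q + v r := by
  have hp := h.box (j := p) (by rw [hT]; simp)
  have hq := h.box (j := q) (by rw [hT]; simp)
  have h4 := h.lo
  rw [hT, sg_three v h1 h2 h3] at h4
  obtain ⟨g1, g2, g3, g4, g5, g6, g7, g8, g9⟩ := h.par
  constructor
  · by_contra hc
    push Not at hc
    linarith
  · by_contra hc
    push Not at hc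
    linarith

/-- the sum of `vE` over a balanced triple -/
theorem TyK.bal (h : TyK v κ x a b w l T) {p q r : ℕ} (h1 : p ≠ q) (h2 : p ≠ r) (h3 : q ≠ r)
    (hT : T = {p, q, r}) (c1 : w < v p + v q) (c2 : w < v p + v r) (c3 : w < v q + v r) :
    vE x b w l (v p) + vE x b w l (v q) + vE x b w l (v r) =
      2 * (sg v T - 3 * b + 6 * l + 3) / (x - 3 * b) := by
  have hp := h.box (j := p) (by rw [hT]; simp)
  have hq := h.box (j := q) (by rw [hT]; simp)
  have hr := h.box (j := r) (by rw [hT]; simp)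
  have h4 := h.up
  have h5 := h.par.hl
  have h6 := h.par.h3b
  rw [hT, sg_three v h1 h2 h3] at h4 ⊢
  rw [vE_eq (by linarith) (by linarith), vE_eq (by linarith) (by linarith),
    vE_eq (by linarith) (by linarith)]
  have h7 : x - 3 * b ≠ 0 := by
    have : 0 < x - 3 * b := by linarith
    exact this.ne'
  field_simp
  ring

/-- Lemma CL for the sums of the weights -/
theorem TyK.cl (h : TyK v κ x a b w l T) :
    (T.card = 1 → ∑ S ∈ T.powerset, lamR v x w l S = 1 ∧
      ∑ S ∈ T.powerset, lamE v x b w l S = 0) ∧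
    (2 ≤ T.card → ∑ S ∈ T.powerset, lamR v x w l S ≤ 0 ∧
      0 ≤ ∑ S ∈ T.powerset, lamR v x w l S + ∑ S ∈ T.powerset, lamE v x b w l S ∧
      0 ≤ ∑ S ∈ T.powerset, lamE v x b w l S) := by
  refine ⟨h.val1, fun hc2 => ?_⟩
  have hc3 := h.card_le
  have h6 := h.par.h3b
  have h7 := h.par.hl
  have h3b : 3 * b ≤ x := by linarith
  have hc : T.card = 2 ∨ T.card = 3 := by omega
  rcases hc with hc | hc
  · obtain ⟨p, q, hpq, hT⟩ := Finset.card_eq_two.1 hc
    obtain ⟨e1, e2⟩ := h.val2 hpq hT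
    rw [e1, e2]
    have h1 := h.lo
    have h2 := h.up
    rw [hT, sg_two v hpq] at h1 h2
    have n1 := vE_nonneg w l (v p) h3b
    have n2 := vE_nonneg w l (v q) h3b
    have n3 := nr_nonneg x l (v p)
    have n4 := nr_nonneg x l (v q)
    by_cases c1 : v p ≤ x / 2 + 6 * l
    · by_cases c2 : v q ≤ x / 2 + 6 * l
      · have m1 : nr x l (v p) = 1 := by
          unfold nr
          rw [if_pos]
          rw [abs_le]
          constructor <;> linarith
        have m2 : nr x l (v q) = 1 := by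
          unfold nr
          rw [if_pos]
          rw [abs_le]
          constructor <;> linarith
        rw [if_pos c1, if_pos c2, m1, m2]
        refine ⟨by norm_num, by linarith, by linarith⟩
      · rw [if_pos c1, if_neg c2]
        refine ⟨by norm_num, by linarith, by linarith⟩
    · have c2 : v q ≤ x / 2 + 6 * l := by linarith
      rw [if_neg c1, if_pos c2]
      refine ⟨by norm_num, by linarith, by linarith⟩
  · obtain ⟨p, q, r, h1, h2, h3, hT⟩ := Finset.card_eq_three.1 hc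
    obtain ⟨e1, e2⟩ := h.val3 h1 h2 h3 hT
    rw [e1, e2]
    have n1 := vE_nonneg w l (v p) h3b
    have n2 := vE_nonneg w l (v q) h3b
    have n3 := vE_nonneg w l (v r) h3b
    by_cases c1 : v p + v q ≤ w
    · obtain ⟨d1, d2⟩ := h.one_pair h1 h2 h3 hT c1
      rw [if_pos c1, if_neg (not_le.2 d1), if_neg (not_le.2 d2), if_pos c1,
        if_neg (not_le.2 d1), if_neg (not_le.2 d2)]
      refine ⟨by norm_num, by linarith, by linarith⟩
    · by_cases c2 : v p + v r ≤ w
      · have hT' : T = {p, r, q} := by rw [hT, Finset.pair_comm]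
        obtain ⟨d1, d2⟩ := h.one_pair h2 h1 h3.symm hT' c2
        rw [if_neg c1, if_pos c2, if_neg (show ¬ v q + v r ≤ w by linarith), if_neg c1,
          if_pos c2, if_neg (show ¬ v q + v r ≤ w by linarith)]
        refine ⟨by norm_num, by linarith, by linarith⟩
      · by_cases c3 : v q + v r ≤ w
        · rw [if_neg c1, if_neg c2, if_pos c3, if_neg c1, if_neg c2, if_pos c3]
          refine ⟨by norm_num, by linarith, by linarith⟩
        · push Not at c1 c2 c3
          have hb := h.bal h1 h2 h3 hT c1 c2 c3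
          rw [if_neg (not_le.2 c1), if_neg (not_le.2 c2), if_neg (not_le.2 c3),
            if_neg (not_le.2 c1), if_neg (not_le.2 c2), if_neg (not_le.2 c3), hb]
          have h8 : (2 : ℝ) ≤ 2 * (sg v T - 3 * b + 6 * l + 3) / (x - 3 * b) := by
            rw [le_div_iff₀ (by linarith)]
            have := h.lo
            linarith
          refine ⟨by norm_num, by linarith, by linarith⟩

end Pool.MP_dd84fd_nt.KX
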