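import Pool.Agent.Lib.MP_dd84fd_nt.KX.NKb
import Pool.Agent.Lib.MP_dd84fd_nt.KX.Val
import Pool.Agent.Lib.MP_dd84fd_nt.IY.NHc

/-!
# Theorem K, numerics: the values at one `k` (helper88)

With `θ' = th - 5 τ`: a type of `k ≥ 2` and `n / k` contributes only if `k` is a prime in `PS X θ' ((1-θ')/2)` or near `√X`, or
`k ∈ KT X n θ'`.
-/

set_option autoImplicit false

namespace Pool.MP_dd84fd_nt.KX

open Finset Pool.MP_67663b_nt.Odd Pool.MP_dd84fd_nt.En Pool.MP_dd84fd_nt.E2 Pool.MP_dd84fd_nt.HX
  Pool.MP_dd84fd_nt.IY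

theorem vE_leN {x b w l u : ℝ} (h1 : b - 1 < u) (hl : 0 ≤ l) (h3 : 3 * b < x) :
    vE x b w l u ≤ 2 * (u - b + 2 * l + 1) / (x - 3 * b) := by
  unfold vE
  have h4 : 0 < x - 3 * b := by linarith
  split_ifs
  · rw [max_eq_right (by linarith)]
  · exact div_nonneg (by linarith) h4.le

open Classical in
/-- the bound for `E` -/
noncomputable def EbK (th e τ ε : ℝ) (X n k : ℕ) : ℝ :=
  201 / 100 * (if k ∈ KT X n (th - 5 * τ) then 1 else 0) +
    2 * (if k ∈ IY.PS X (1 / 2 - ε) (1 / 2 + ε) then 1 else 0) +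
    2 / (1 - 3 * bI th e) * (if k ∈ IY.PS X (th - 5 * τ) ((1 - (th - 5 * τ)) / 2) then
      Real.log k / Real.log X - (th - 5 * τ) + ε else 0)

open Classical in
/-- **the values at one `k`** -/
theorem nkc (th e τ : ℝ) (hA : AdmK th e τ) (B' : ℕ) (hB : 1 ≤ B') (ε : ℝ) (hε : 0 < ε) :
    ∃ X0 : ℕ, ∀ X : ℕ, X0 ≤ X → ∀ n k : ℕ,
    X5 X < n → n ≤ X → 2 ≤ k → Simp (kp B' X) (zt X) k → (zt X : ℝ) ≤ (n : ℝ) / k →
    (∀ j ∈ ty (kp B' X) (zt X) k, j < bx (kp B' X) (zt X) ((n : ℝ) / k)) →
    ∀ T : Finset ℕ, T = insert (bx (kp B' X) (zt X) ((n : ℝ) / k)) (ty (kp B' X) (zt X) k) →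
    -rmK τ (bI th e) (lK th τ) (kp B' X) X T ≤ 2 * (if k ∈ KT X n (th - 5 * τ) then 1 else 0) +
      (if k ∈ IY.PS X (1 / 2 - ε) (1 / 2 + ε) then 1 else 0) ∧
    epK τ (bI th e) (lK th τ) (kp B' X) X T ≤ EbK th e τ ε X n k ∧
    spK τ (bI th e) (lK th τ) (kp B' X) X T ≤ EbK th e τ ε X n k := by
  obtain ⟨a1, a2, a3, a4, a5, a6⟩ := hA
  have hτ0 : 0 < τ := by linarith
  have hc0 : 0 < min τ ε := lt_min hτ0 hε
  obtain ⟨X1, hX1⟩ := nhc_big _ hc0 B' hB
  obtain ⟨X2, hX2⟩ := sg_n B' hB
  refine ⟨max X1 (max X2 2), ?_⟩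
  intro X hX n k hn hnX hk hS hz hj T hT
  simp only [max_le_iff] at hX
  obtain ⟨b1, b2, b3⟩ := hX
  obtain ⟨g1, g2, g3, g4, g5, g6, g7, g8, g9⟩ := hX1 X b1
  obtain ⟨hcard, ht1, ht2⟩ := hX2 X b2 n k hn hnX (by omega) hS hz hj
  rw [← hT] at ht1 ht2
  set x := Real.log (X : ℝ) with hxd
  set l := Real.log x with hld
  set κ := kp B' X with hκd
  set z := zt X with hzd
  set T0 := ty κ z k with hT0
  set j0 := bx κ z ((n : ℝ) / k) with hj0
  set θ := th - 5 * τ with hθ
  set b := bI th e * x with hb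
  set w := lK th τ * x with hw
  have hx0 : 0 < x := by linarith
  have hm1 : min τ ε * x ≤ τ * x := mul_le_mul_of_nonneg_right (min_le_left _ _) hx0.le
  have hm2 : min τ ε * x ≤ ε * x := mul_le_mul_of_nonneg_right (min_le_right _ _) hx0.le
  have hτx : 100 * l + 100 ≤ τ * x := g5.trans hm1
  have hεx : 100 * l + 100 ≤ ε * x := g5.trans hm2
  have hbx : b = th * x - 3 * (e * x) := by
    rw [hb]
    unfold bI
    ring
  have hwx : w = x / 2 + th * x / 2 - 2 * (τ * x) := by
    rw [hw]
    unfold lK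
    ring
  have hex : 1000 * (e * x) ≤ τ * x := by
    have := mul_le_mul_of_nonneg_right a4 hx0.le
    linarith
  have hex0 : 0 ≤ e * x := by positivity
  have hth1 : 16 * (τ * x) ≤ th * x - x / 4 := by
    have := mul_le_mul_of_nonneg_right a5 hx0.le
    linarith
  have hth2 : 16 * (τ * x) ≤ x / 3 - th * x := by
    have := mul_le_mul_of_nonneg_right a6 hx0.le
    linarith
  have hθx : θ * x = th * x - 5 * (τ * x) := by
    rw [hθ]
    ring
  have hlog2 : Real.log 2 < 7 / 10 := by
    have := Real.log_two_lt_d9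
    linarith
  have hκ1 : 11 * κ ≤ 1 := by linarith
  have hpar : ParK κ x (τ * x) b w l := by
    refine ⟨g3, hκ1, by positivity, ?_, ?_, ?_, ?_, ?_, ?_⟩ <;> linarith
  have hlo : x - 6 * l ≤ sg (vlog κ z) T := by linarith
  have hz1 : 1 ≤ z := by omega
  have hvge : ∀ j, τ * x < vlog κ z j := by
    intro j
    rw [vlog_eq κ z j hz1]
    have h1 : 0 ≤ κ * (j : ℝ) := by positivity
    have h2 : τ * x < x / 10 := by linarith
    linarith
  have h3b : 3 * b < x := by
    have := hpar.h3b
    linarith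
  have hx3b : x - 3 * b = (1 - 3 * bI th e) * x := by rw [hb]; ring
  have hβ1 : 0 < 1 - 3 * bI th e := by
    unfold bI
    linarith
  -- the right-hand sides are nonnegative
  have hX1' : 1 < X := by omega
  have i1 : (0 : ℝ) ≤ (if k ∈ KT X n θ then 1 else 0) := by split_ifs <;> norm_num
  have i2 : (0 : ℝ) ≤ (if k ∈ IY.PS X (1 / 2 - ε) (1 / 2 + ε) then 1 else 0) := by
    split_ifs <;> norm_num
  have i3 : (0 : ℝ) ≤ (if k ∈ IY.PS X θ ((1 - θ) / 2) then
      Real.log k / x - θ + ε else 0) := by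
    split_ifs with h
    · obtain ⟨_, _, h1, _⟩ := of_mem_PS hX1' h
      have : θ ≤ Real.log k / x := by
        rw [le_div_iff₀ hx0]
        exact h1
      linarith
    · exact le_rfl
  have i4 : 0 ≤ 2 / (1 - 3 * bI th e) := div_nonneg (by norm_num) hβ1.le
  have hEb : EbK th e τ ε X n k = 201 / 100 * (if k ∈ KT X n θ then 1 else 0) +
    2 * (if k ∈ IY.PS X (1 / 2 - ε) (1 / 2 + ε) then 1 else 0) +
    2 / (1 - 3 * bI th e) * (if k ∈ IY.PS X θ ((1 - θ) / 2) then
      Real.log k / x - θ + ε else 0) := rfl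
  have i5 : 0 ≤ EbK th e τ ε X n k := by
    rw [hEb]
    have := mul_nonneg i4 i3
    linarith
  have hj0T : j0 ∉ T0 := fun h => lt_irrefl _ (hj j0 h)
  have hT0c : T0.card = k.primeFactors.card :=
    Finset.card_image_of_injOn (n_inj hS)
  have hTc : T.card = k.primeFactors.card + 1 := by
    rw [hT, Finset.card_insert_of_notMem hj0T, hT0c]
  have hT10 : T.card ≤ 10 := by omega
  have hRdef : rmK τ (bI th e) (lK th τ) κ X T = if gdT (vlog κ z) κ (τ * x) b T then 0 else
      ∑ S ∈ T.powerset, lamR (vlog κ z) x w l S := by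
    unfold rmK Wl wT
    rw [if_pos hT10]
  have hEdef : epK τ (bI th e) (lK th τ) κ X T = if gdT (vlog κ z) κ (τ * x) b T then 0 else
      ∑ S ∈ T.powerset, lamE (vlog κ z) x b w l S := by
    unfold epK Wl wT
    rw [if_pos hT10]
  have hSdef : spK τ (bI th e) (lK th τ) κ X T = rmK τ (bI th e) (lK th τ) κ X T +
      epK τ (bI th e) (lK th τ) κ X T := rfl
  by_cases hg : gdT (vlog κ z) κ (τ * x) b T
  · rw [hSdef, hRdef, hEdef, if_pos hg, if_pos hg]
    refine ⟨?_, ?_, ?_⟩ <;> linarith
  have hTy : TyK (vlog κ z) κ x (τ * x) b w l T := ⟨hpar, hlo, ht2, fun j _ => hvge j, hg⟩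
  rw [hSdef, hRdef, hEdef, if_neg hg, if_neg hg]
  have hc3 := hTy.card_le
  have hk0 : k ≠ 0 := by omega
  have hpfne : k.primeFactors.Nonempty := by
    rw [Nat.nonempty_primeFactors]
    omega
  have hpf1 : 1 ≤ k.primeFactors.card := Finset.card_pos.2 hpfne
  have hRle : ∑ S ∈ T.powerset, lamR (vlog κ z) x w l S ≤ 0 := (hTy.cl.2 (by omega)).1
  -- it is enough to bound `R` and `E`
  suffices hsuf : -∑ S ∈ T.powerset, lamR (vlog κ z) x w l S ≤
      2 * (if k ∈ KT X n θ then 1 else 0) +
        (if k ∈ IY.PS X (1 / 2 - ε) (1 / 2 + ε) then 1 else 0) ∧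
      ∑ S ∈ T.powerset, lamE (vlog κ z) x b w l S ≤ EbK th e τ ε X n k from
    ⟨hsuf.1, hsuf.2, by linarith [hsuf.2]⟩
  have hpz : ∀ p ∈ k.primeFactors, (z : ℝ) ≤ p := fun p hp => by
    exact_mod_cast hS.1.2 p hp
  have hvp : ∀ p ∈ k.primeFactors, vlog κ z (bx κ z p) ≤ Real.log p ∧
      Real.log p < vlog κ z (bx κ z p) + κ := fun p hp => vlog_bx g7 hz1 (hpz p hp)
  have hvn := vlog_bx g7 hz1 hz
  have hprod : ∏ p ∈ k.primeFactors, p = k := Nat.prod_primeFactors_of_squarefree hS.2.1
  have hk0' : (0 : ℝ) < k := by exact_mod_cast (by omega : 0 < k)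
  have hkX : k ≤ X := by
    have h1 : (1 : ℝ) ≤ (n : ℝ) / k := by
      have : (1 : ℝ) ≤ z := by exact_mod_cast hz1
      linarith
    rw [le_div_iff₀ hk0', one_mul] at h1
    have h2 : (k : ℝ) ≤ (X : ℝ) := h1.trans (by exact_mod_cast hnX)
    exact_mod_cast h2
  have hmono : ∀ j ∈ T0, vlog κ z j ≤ vlog κ z j0 := by
    intro j hjm
    rw [vlog_eq κ z _ hz1, vlog_eq κ z _ hz1]
    have h10 : (j : ℝ) ≤ j0 := by exact_mod_cast (hj j hjm).le
    have := mul_le_mul_of_nonneg_left h10 g7.le
    linarith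
  have hcc : k.primeFactors.card = 1 ∨ k.primeFactors.card = 2 := by omega
  rcases hcc with hc | hc
  · -- a prime
    obtain ⟨p, hp⟩ := Finset.card_eq_one.1 hc
    have hpm : p ∈ k.primeFactors := by rw [hp]; simp
    have hpp := Nat.prime_of_mem_primeFactors hpm
    rw [hp, Finset.prod_singleton] at hprod
    have hT0' : T0 = {bx κ z p} := by
      rw [hT0]
      unfold ty
      rw [hp, Finset.image_singleton]
    set jp := bx κ z p with hjp
    have hjpT : jp ∈ T0 := by rw [hT0']; simp
    have hne : jp ≠ j0 := fun h => hj0T (h ▸ hjpT)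
    have hTT : T = {jp, j0} := by
      rw [hT, hT0', Finset.pair_comm]
    obtain ⟨e1, e2⟩ := hTy.val2 hne hTT
    rw [e1, e2]
    have hv1 := hvp p hpm
    rw [← hjp] at hv1
    have hsg : vlog κ z jp + vlog κ z j0 = sg (vlog κ z) T := by
      rw [hTT, sg_two _ hne]
    have hm := hmono jp hjpT
    have hlp : Real.log k = Real.log p := by rw [← hprod]
    have hkp : k.Prime := by rw [← hprod]; exact hpp
    have hbox := hTy.box (j := jp) (by rw [hTT]; simp)
    have hnear : x / 2 - 26 * l ≤ vlog κ z jp → k ∈ IY.PS X (1 / 2 - ε) (1 / 2 + ε) := by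
      intro h
      refine mem_PS hX1' hkp hkX ?_ ?_
      · rw [hlp]
        linarith
      · rw [hlp]
        linarith
    have hvE0 : vE x b w l (vlog κ z j0) = 0 := by
      refine vE_zero ?_
      have := hpar.hxw
      linarith
    constructor
    · rw [if_pos (show vlog κ z jp ≤ x / 2 + 6 * l by linarith)]
      by_cases h6 : vlog κ z j0 ≤ x / 2 + 6 * l
      · rw [if_pos h6, if_pos (hnear (by linarith))]
        linarith
      · rw [if_neg h6]
        linarith
    · rw [hvE0, hEb]
      have hA1 : nr x l (vlog κ z jp) + nr x l (vlog κ z j0) ≤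
          2 * (if k ∈ IY.PS X (1 / 2 - ε) (1 / 2 + ε) then 1 else 0) := by
        by_cases h6 : x / 2 - 26 * l ≤ vlog κ z jp
        · rw [if_pos (hnear h6)]
          unfold nr
          split_ifs <;> norm_num
        · have h7 : nr x l (vlog κ z jp) = 0 := by
            unfold nr
            rw [if_neg]
            intro h8
            have := (abs_le.1 h8).1
            linarith
          have h9 : nr x l (vlog κ z j0) = 0 := by
            unfold nr
            rw [if_neg]
            intro h8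
            have := (abs_le.1 h8).2
            linarith
          rw [h7, h9]
          linarith
      have hA2 : vE x b w l (vlog κ z jp) ≤ 2 / (1 - 3 * bI th e) *
          (if k ∈ IY.PS X θ ((1 - θ) / 2) then Real.log k / x - θ + ε else 0) := by
        by_cases h6 : vlog κ z jp ≤ x - w
        · have hmem : k ∈ IY.PS X θ ((1 - θ) / 2) := by
            refine mem_PS hX1' hkp hkX ?_ ?_
            · rw [hlp]
              linarith
            · rw [hlp]
              have : (1 - θ) / 2 * x = x / 2 - (θ * x) / 2 := by ring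
              rw [this, hθx]
              linarith
          rw [if_pos hmem]
          refine (vE_leN hbox (by linarith) h3b).trans ?_
          rw [hx3b, div_mul_eq_mul_div, div_le_div_iff₀ (by positivity) hβ1]
          have h7 : (Real.log k / x - θ + ε) * x = Real.log p - θ * x + ε * x := by
            rw [hlp]
            field_simp
          have h8 : 2 * (Real.log k / x - θ + ε) * ((1 - 3 * bI th e) * x) =
              2 * (Real.log p - θ * x + ε * x) * (1 - 3 * bI th e) := by
            rw [← h7]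
            ring
          rw [h8]
          refine mul_le_mul_of_nonneg_right ?_ hβ1.le
          linarith
        · rw [vE_zero (not_le.1 h6)]
          exact mul_nonneg i4 i3
      linarith
  · -- two primes
    obtain ⟨p', q', hpq', hpf'⟩ := Finset.card_eq_two.1 hc
    obtain ⟨p, q, hqp, hpf⟩ : ∃ p q : ℕ, q < p ∧ k.primeFactors = {p, q} := by
      rcases lt_or_gt_of_ne hpq' with h | h
      · exact ⟨q', p', h, by rw [hpf', Finset.pair_comm]⟩
      · exact ⟨p', q', h, hpf'⟩
    have hpq : p ≠ q := hqp.ne'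
    have hpm : p ∈ k.primeFactors := by rw [hpf]; simp
    have hqm : q ∈ k.primeFactors := by rw [hpf]; simp
    have hpp := Nat.prime_of_mem_primeFactors hpm
    have hqq := Nat.prime_of_mem_primeFactors hqm
    rw [hpf, Finset.prod_pair hpq] at hprod
    have hbb : bx κ z p ≠ bx κ z q := fun h => hpq (hS.2.2 p hpm q hqm h)
    have hT0' : T0 = {bx κ z p, bx κ z q} := by
      rw [hT0]
      unfold ty
      rw [hpf, Finset.image_insert, Finset.image_singleton]
    set jp := bx κ z p with hjp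
    set jq := bx κ z q with hjq
    have hjpT : jp ∈ T0 := by rw [hT0']; simp
    have hjqT : jq ∈ T0 := by rw [hT0']; simp
    have hne1 : jp ≠ j0 := fun h => hj0T (h ▸ hjpT)
    have hne2 : jq ≠ j0 := fun h => hj0T (h ▸ hjqT)
    have hTT : T = {jp, jq, j0} := by
      rw [hT, hT0']
      ext j
      simp only [Finset.mem_insert, Finset.mem_singleton]
      tauto
    obtain ⟨e1, e2⟩ := hTy.val3 hbb hne1 hne2 hTT
    rw [e1, e2]
    have hv1 := hvp p hpm
    have hv2 := hvp q hqm
    rw [← hjp] at hv1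
    rw [← hjq] at hv2
    have hsg : vlog κ z jp + vlog κ z jq + vlog κ z j0 = sg (vlog κ z) T := by
      rw [hTT, sg_three _ hbb hne1 hne2]
    have hboxp := hTy.box (j := jp) (by rw [hTT]; simp)
    have hboxq := hTy.box (j := jq) (by rw [hTT]; simp)
    have hbox0 := hTy.box (j := j0) (by rw [hTT]; simp)
    have n1 := vE_nonneg w l (vlog κ z jp) h3b.le
    have n2 := vE_nonneg w l (vlog κ z jq) h3b.le
    have n3 := vE_nonneg w l (vlog κ z j0) h3b.le
    by_cases h6 : x - w < vlog κ z j0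
    · have hpw : vlog κ z jp + vlog κ z jq ≤ w := by linarith
      obtain ⟨d1, d2⟩ := hTy.one_pair hbb hne1 hne2 hTT hpw
      rw [if_pos hpw, if_neg (not_le.2 d1), if_neg (not_le.2 d2), if_pos hpw,
        if_neg (not_le.2 d1), if_neg (not_le.2 d2), vE_zero h6]
      constructor <;> linarith
    · push Not at h6
      have hmem : k ∈ KT X n θ := by
        unfold KT
        rw [Finset.mem_filter, Finset.mem_Icc]
        refine ⟨⟨by omega, hkX⟩, p, q, hpp, hqq, hqp, hprod.symm, ?_, ?_, ?_⟩
        · rw [← hxd]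
          linarith
        · have h7 := n_le g7 hz1 hS hz hj hpm
          exact Real.log_le_log (by exact_mod_cast hpp.pos) h7
        · rw [← hxd]
          have : (1 - θ) / 2 * x = x / 2 - (θ * x) / 2 := by ring
          rw [this, hθx]
          linarith [hvn.2]
      rw [if_pos hmem, hEb, if_pos hmem]
      have f1 : ∀ s t : ℝ, (0 : ℝ) ≤ (if s ≤ t then 2 else 0) := fun s t => by
        split_ifs <;> norm_num
      have f2 : (0 : ℝ) ≤ (if vlog κ z jp + vlog κ z jq ≤ w then
          vE x b w l (vlog κ z jp) + vE x b w l (vlog κ z jq) else 0) := by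
        split_ifs <;> linarith
      have f3 : (0 : ℝ) ≤ (if vlog κ z jp + vlog κ z j0 ≤ w then
          vE x b w l (vlog κ z jp) + vE x b w l (vlog κ z j0) else 0) := by
        split_ifs <;> linarith
      have f4 : (0 : ℝ) ≤ (if vlog κ z jq + vlog κ z j0 ≤ w then
          vE x b w l (vlog κ z jq) + vE x b w l (vlog κ z j0) else 0) := by
        split_ifs <;> linarith
      constructor
      · have := f1 (vlog κ z jp + vlog κ z jq) w
        have := f1 (vlog κ z jp + vlog κ z j0) w
        have := f1 (vlog κ z jq + vlog κ z j0) w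
        linarith
      · have m1 := vE_leN (w := w) hboxp (show 0 ≤ l by linarith) h3b
        have m2 := vE_leN (w := w) hboxq (show 0 ≤ l by linarith) h3b
        have m3 := vE_leN (w := w) hbox0 (show 0 ≤ l by linarith) h3b
        have m4 : 2 * (vlog κ z jp - b + 2 * l + 1) / (x - 3 * b) +
            2 * (vlog κ z jq - b + 2 * l + 1) / (x - 3 * b) +
            2 * (vlog κ z j0 - b + 2 * l + 1) / (x - 3 * b) ≤ 201 / 100 := by
          rw [← add_div, ← add_div, div_le_iff₀ (by linarith)]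
          linarith
        have := mul_nonneg i4 i3
        linarith

end Pool.MP_dd84fd_nt.KX
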