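import Pool.Agent.Lib.MP_dd84fd_nt.KX.Rep

/-!
# Theorem K: (W2) for type functions with weights of level `X^ℓ` (helper63)

`decK_types`: type functions `Wl α β κ X lam` with `lam` bounded and supported on
`sg S ≤ ℓ log X + log (3/2)` have the decomposition `DecW α β L` for every `L > ℓ + α`.
-/

set_option autoImplicit false

namespace Pool.MP_dd84fd_nt.KX

open Finset Pool.MP_dd84fd_nt.HX Pool.MP_dd84fd_nt.IY

private theorem bcl3_cl {B' X q : ℕ} (hL : 1 ≤ Real.log X) (hq : 1 ≤ q) (hqX : q ≤ X) :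
    cl (kp B' X) q < NJ B' X := by
  have hl : 0 < Real.log X := by linarith
  have h1 : Real.log q / kp B' X ≤ (Real.log X) ^ (B' + 1) := by
    have h2 : Real.log q ≤ Real.log X :=
      Real.log_le_log (by exact_mod_cast hq) (by exact_mod_cast hqX)
    unfold kp
    rw [div_div_eq_mul_div, div_one, pow_succ, mul_comm]
    exact mul_le_mul_of_nonneg_left h2 (by positivity)
  unfold cl NJ
  exact Nat.lt_succ_of_le (Nat.floor_le_floor h1)

private theorem bcl3_NJ {B' X : ℕ} (hL : 2 ≤ Real.log X) :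
    (NJ B' X : ℝ) ≤ (Real.log X) ^ (B' + 2) := by
  have h1 : (1 : ℝ) ≤ (Real.log X) ^ (B' + 1) := one_le_pow₀ (by linarith)
  unfold NJ
  rw [Nat.cast_add, Nat.cast_one]
  calc (⌊(Real.log X) ^ (B' + 1)⌋₊ : ℝ) + 1 ≤ (Real.log X) ^ (B' + 1) + (Real.log X) ^ (B' + 1) :=
        add_le_add (Nat.floor_le (by linarith)) h1
    _ = (Real.log X) ^ (B' + 1) * 2 := by ring
    _ ≤ (Real.log X) ^ (B' + 1) * Real.log X := mul_le_mul_of_nonneg_left hL (by linarith)
    _ = (Real.log X) ^ (B' + 2) := by ring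

theorem lowE_rep (B' : ℕ) (hB : 1 ≤ B') : ∃ C : ℕ, ∀ α β : ℝ, 0 < α → α + 1 / 10 < β →
    β < 1 / 2 → ∃ X0 : ℕ, ∀ X : ℕ, X0 ≤ X → ∀ lam0 : ℕ → ℝ, (∀ m, |lam0 m| ≤ 2 ^ 13) →
    (∀ m, lam0 m ≠ 0 → Rgh (zt X) m) →
    ∀ B : ℕ, BRepG α β X C B (TBg (kp B' X) (zt X) (Ae (zt X) lam0 (2 * (X : ℝ) ^ α))) := by
  refine ⟨B' + 2, fun α β h0 h1 h2 => ?_⟩
  obtain ⟨X0, hX0⟩ := b_par α β h0 h1 h2 (2 ^ 23)
  refine ⟨X0, fun X hX lam0 hlam hrg B => ?_⟩
  obtain ⟨g1, g2, -, g4, g5, g6, g7, g8, g9, -, -, -, g13⟩ := hX0 X hX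
  have g2' : (2 : ℝ) ^ 23 ≤ Real.log X := by
    push_cast at g2
    linarith
  have hL : (1 : ℝ) ≤ Real.log X := by
    refine le_trans ?_ g2'
    norm_num
  have hL2 : (2 : ℝ) ≤ Real.log X := by
    refine le_trans ?_ g2'
    norm_num
  have hLC : (2 : ℝ) ^ 23 ≤ (Real.log X) ^ (B' + 2) :=
    g2'.trans (le_self_pow₀ hL (by omega))
  have hZ : (0 : ℝ) < 2 * (X : ℝ) ^ α := by linarith
  have hz1 : 1 ≤ zt X := by omega
  have hI := bcl3_NJ (B' := B') (X := X) hL2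
  have h := brg_sum (α := α) (β := β) (B := B) (C := B' + 2) hL (range (NJ B' X))
    (by rw [Finset.card_range]; exact hI)
    (fun i => aW (kp B' X) (2 * (X : ℝ) ^ α) (zt X) i)
    (fun i => cW (kp B' X) lam0 X i)
    (fun i _ n => by
      refine ⟨?_, (cW_abs hz1 g7 hlam hrg i n).trans hLC⟩
      unfold aW
      split_ifs
      · exact (mr_le n).trans (one_le_pow₀ hL)
      · rw [abs_zero]
        positivity)
    (fun i _ m hm => by
      unfold aW at hm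
      split_ifs at hm with hc
      · obtain ⟨⟨c1, c2, c3⟩, -⟩ := hc
        have hm0 : m ≠ 0 := by
          rintro rfl
          rw [Nat.cast_zero] at c2
          linarith
        have hm1 : m ≠ 1 := by
          rintro rfl
          rw [Nat.minFac_one, Nat.cast_one, mul_one] at c3
          rw [Nat.cast_one] at c2
          linarith
        have hp : m.minFac < zt X :=
          c1 _ (Nat.mem_primeFactors.2 ⟨Nat.minFac_prime hm1, Nat.minFac_dvd _, hm0⟩)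
        have hp' : (m.minFac : ℝ) ≤ zt X := by exact_mod_cast hp.le
        refine ⟨by linarith, ?_⟩
        refine c3.le.trans (le_trans ?_ g9)
        calc 2 * (X : ℝ) ^ α * (m.minFac : ℝ) ≤ 2 * (X : ℝ) ^ α * zt X :=
              mul_le_mul_of_nonneg_left hp' hZ.le
          _ ≤ 2 * (X : ℝ) ^ α * zt X * (Real.log X) ^ (2 ^ 23) :=
              le_mul_of_one_le_right (by positivity) (one_le_pow₀ hL)
      · exact absurd rfl hm)
  refine brg_congr (fun n hn hn' => ?_) h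
  have hn1 : 1 ≤ n := by
    have h3 : (1 : ℝ) < n := lt_of_le_of_lt g13 hn
    have h4 : 1 < n := by exact_mod_cast h3
    omega
  exact (tbE_eq hrg (fun q hq hqX => bcl3_cl hL hq hqX) hn1 hn').symm

theorem ffK_rep (B : ℕ) : ∃ B0 : ℕ, ∀ B' : ℕ, B0 ≤ B' → ∃ C : ℕ, ∀ α β ℓ L : ℝ, 0 < α →
    α + 1 / 10 < β → β < 1 / 2 → ℓ + α < L → ∃ X0 : ℕ, ∀ X : ℕ, X0 ≤ X → ∀ lam : Finset ℕ → ℝ,
    AdmL (1 - ℓ) (kp B' X) X lam → ∃ al : ℕ → ℝ, (∀ l, |al l| ≤ 2 ^ 14) ∧
      (∀ l : ℕ, 2 * (X : ℝ) ^ L < l → al l = 0) ∧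
      BRepG α β X C B (fun n => Ff (kp B' X) (zt X) lam n - ∑ l ∈ n.divisors, al l) := by
  classical
  obtain ⟨B1, hB1⟩ := tsb_small (B + 1)
  refine ⟨max B1 1, fun B' hB' => ?_⟩
  have hB'1 : 1 ≤ B' := le_trans (le_max_right _ _) hB'
  obtain ⟨C1, hlow0⟩ := lowE_rep B' hB'1
  refine ⟨C1 + 1, fun α β ℓ L h0 h1 h2 hL0 => ?_⟩
  obtain ⟨X1, hlow⟩ := hlow0 α β h0 h1 h2
  obtain ⟨X4, hts⟩ := hB1 B' (le_trans (le_max_left _ _) hB')
  obtain ⟨X6, hpar⟩ := b_par α β h0 h1 h2 0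
  obtain ⟨X7, hkp⟩ := kp_par B' hB'1
  -- `2 ≤ X^(L - ℓ - α)`
  have hev : ∀ᶠ X : ℕ in Filter.atTop, (2 : ℝ) ≤ (X : ℝ) ^ (L - ℓ - α) :=
    ((tendsto_rpow_atTop (by linarith : 0 < L - ℓ - α)).comp
      tendsto_natCast_atTop_atTop).eventually_ge_atTop 2
  obtain ⟨X8, hX8⟩ := Filter.eventually_atTop.1 hev
  refine ⟨X1 + X4 + X6 + X7 + X8, fun X hX lam hlam => ?_⟩
  obtain ⟨p1, p2, p3, p4, p5, p6, p7, p8, p9, p10, p11, p12, p13⟩ := hpar X (by omega)
  obtain ⟨k1, k2, k3, k4⟩ := hkp X (by omega)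
  have p14 := hX8 X (by omega)
  have hL4 : 4 ≤ Real.log X := by
    have : ((0 : ℕ) : ℝ) + 4 ≤ Real.log X := p2
    rw [Nat.cast_zero, zero_add] at this
    exact this
  have hL1 : 1 ≤ Real.log X := by linarith
  have hXp : (0 : ℝ) < X := by exact_mod_cast p1
  set κ : ℝ := kp B' X with hκ
  set z : ℕ := zt X with hz
  set lam0 : ℕ → ℝ := lamN κ z lam with hlam0
  have hbd : ∀ m, |lam0 m| ≤ 2 ^ 13 := by
    intro m
    rw [hlam0]
    unfold lamN
    split_ifs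
    · exact hlam.1 _
    · rw [abs_zero]
      norm_num
  have hsup : ∀ m, lam0 m ≠ 0 → Rgh z m ∧ (m : ℝ) < 2 * (X : ℝ) ^ (1 - (1 - ℓ)) := fun m hm =>
    lamN_supp p1 k1 (by omega) k4 hlam hm
  have hrg : ∀ m, lam0 m ≠ 0 → Rgh z m := fun m hm => (hsup m hm).1
  have hZ1 : (1 : ℝ) < 2 * (X : ℝ) ^ α := by linarith
  refine ⟨fun l => if (sm z l : ℝ) < 2 * (X : ℝ) ^ α then lam0 (ro z l) * mr (sm z l) else 0,
    ?_, ?_, ?_⟩
  · intro l
    show |if (sm z l : ℝ) < 2 * (X : ℝ) ^ α then lam0 (ro z l) * mr (sm z l) else 0| ≤ 2 ^ 14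
    split_ifs
    · rw [abs_mul]
      calc |lam0 (ro z l)| * |mr (sm z l)| ≤ 2 ^ 13 * 1 :=
            mul_le_mul (hbd _) (mr_le _) (abs_nonneg _) (by norm_num)
        _ ≤ 2 ^ 14 := by norm_num
    · rw [abs_zero]
      norm_num
  · intro l hl
    show (if (sm z l : ℝ) < 2 * (X : ℝ) ^ α then lam0 (ro z l) * mr (sm z l) else 0) = 0
    have hl0 : l ≠ 0 := by
      rintro rfl
      rw [Nat.cast_zero] at hl
      have : (0 : ℝ) < 2 * (X : ℝ) ^ L := by positivity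
      linarith
    split_ifs with hs
    · by_cases h3 : lam0 (ro z l) = 0
      · rw [h3, zero_mul]
      · exfalso
        have h4 := (hsup _ h3).2
        have h5 : (l : ℝ) = (ro z l : ℝ) * (sm z l : ℝ) := by
          exact_mod_cast (ro_mul_sm z l hl0).symm
        have h6 : (0 : ℝ) < sm z l := by exact_mod_cast sm_pos z l
        have h7 : (l : ℝ) < (2 * (X : ℝ) ^ (1 - (1 - ℓ))) * (2 * (X : ℝ) ^ α) := by
          rw [h5]
          exact mul_lt_mul'' h4 hs (by positivity) h6.le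
        have h8 : (2 * (X : ℝ) ^ (1 - (1 - ℓ))) * (2 * (X : ℝ) ^ α) ≤ 2 * (X : ℝ) ^ L := by
          calc (2 * (X : ℝ) ^ (1 - (1 - ℓ))) * (2 * (X : ℝ) ^ α)
              = 2 * (2 * ((X : ℝ) ^ (1 - (1 - ℓ)) * (X : ℝ) ^ α)) := by ring
            _ ≤ 2 * ((X : ℝ) ^ (L - ℓ - α) * ((X : ℝ) ^ (1 - (1 - ℓ)) * (X : ℝ) ^ α)) := by
                gcongr
            _ = 2 * (X : ℝ) ^ L := by
                rw [← Real.rpow_add hXp, ← Real.rpow_add hXp]
                congr 2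
                ring
        linarith
    · rfl
  · have t1 : BRepG α β X C1 (B + 1) (TBg κ z (Ae z lam0 (2 * (X : ℝ) ^ α))) :=
      hlow X (by omega) lam0 hbd hrg (B + 1)
    have t2 : BRepG α β X C1 (B + 1)
        (fun n => TSg z (Ae z lam0 (2 * (X : ℝ) ^ α)) n -
          TBg κ z (Ae z lam0 (2 * (X : ℝ) ^ α)) n) :=
      brg_small hL1 (hts X (by omega) z _ (fun l => ae_abs hbd l) (fun l hl => ae_sm hl))
    refine brg_congr (fun n hn hn' => ?_) (brg_add hL4 t1 t2)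
    have hn1 : 1 ≤ n := by
      have : (1 : ℝ) < n := lt_of_le_of_lt p13 hn
      have h3 : 1 < n := by exact_mod_cast this
      omega
    have e1 : Ff κ z lam n = ∑ m ∈ n.divisors, lam0 m * rg z (n / m) := rfl
    rw [e1, smoE_id z lam0 (2 * (X : ℝ) ^ α) hZ1 n hn1 hrg]
    ring

theorem decK_types (B : ℕ) : ∃ B0 : ℕ, ∀ B' : ℕ, B0 ≤ B' → ∃ C2 : ℕ, ∀ α β ℓ L : ℝ, 0 < α →
    α + 1 / 10 < β → β < 1 / 2 → ℓ + α < L → ∀ lam : ℕ → Finset ℕ → ℝ,
    (∃ X1 : ℕ, ∀ X : ℕ, X1 ≤ X → AdmL (1 - ℓ) (kp B' X) X (lam X)) →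
    DecW α β L B C2 (fun X => wty (kp B' X) X (Wl α β (kp B' X) X (lam X))) := by
  classical
  obtain ⟨B01, hff⟩ := ffK_rep (B + 4)
  obtain ⟨B02, hns⟩ := nsf_small (B + 3)
  refine ⟨B01 + B02 + 1, fun B' hB' => ?_⟩
  obtain ⟨Cf, hff⟩ := hff B' (by omega)
  obtain ⟨Cg, hgg⟩ := gg_rep B' (by omega)
  obtain ⟨Xn, hns⟩ := hns B' (by omega)
  obtain ⟨C', hblk⟩ := blk (Cf + Cg + 2) B
  refine ⟨C' + 1, fun α β ℓ L h0 h1 h2 hL0 lam hlam => ?_⟩
  obtain ⟨Xf, hff⟩ := hff α β ℓ L h0 h1 h2 hL0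
  obtain ⟨Xg, hgg⟩ := hgg α β h0 h1 h2
  obtain ⟨Xi, hid⟩ := wty_id α β h0 h1 h2 B' (by omega)
  obtain ⟨Xb, hblk⟩ := hblk α β h0 h1 h2
  obtain ⟨X1, hlam⟩ := hlam
  obtain ⟨Xe, hXe0⟩ := exists_nat_ge (Real.exp ((2 : ℝ) ^ 14))
  refine ⟨X1 + Xf + Xg + Xn + Xi + Xb + Xe, fun X hX => ?_⟩
  have hXe : Real.exp ((2 : ℝ) ^ 14) ≤ (X : ℝ) := by
    refine hXe0.trans ?_
    exact_mod_cast (show Xe ≤ X by omega)
  have hX0 : (0 : ℝ) < X := lt_of_lt_of_le (Real.exp_pos _) hXe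
  have hL : (2 : ℝ) ^ 14 ≤ Real.log X := (Real.le_log_iff_exp_le hX0).2 hXe
  have hL1 : (1 : ℝ) ≤ Real.log X := by linarith [show (1 : ℝ) ≤ 2 ^ 14 by norm_num]
  have hL4 : (4 : ℝ) ≤ Real.log X := by linarith [show (4 : ℝ) ≤ 2 ^ 14 by norm_num]
  have hpow : ∀ k : ℕ, (1 : ℝ) ≤ (Real.log X) ^ k := fun k => one_le_pow₀ hL1
  have hadm := hlam X (by omega)
  obtain ⟨al, hal1, hal2, hrep⟩ := hff X (by omega) (lam X) hadm
  have hg := brg_neg (hgg X (by omega) (lam X) hadm.1 (B + 3 + 1))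
  have hn := brg_neg (brg_small (α := α) (β := β) (C := Cf + Cg + 1) hL1
    (hns X (by omega) (lam X) hadm.1))
  have hrep' := brg_mono hL1 (show Cf ≤ Cf + Cg by omega) hrep
  have hg' := brg_mono hL1 (show Cg ≤ Cf + Cg by omega) hg
  have h12 := brg_add (B := B + 3) hL4 hrep' hg'
  have h123 := brg_add (B := B + 2) hL4 h12 hn
  obtain ⟨I, M, K, a, c, err, hI, hac, hMK, ha, hidn, herr⟩ := hblk X (by omega) _ h123
  have hbig : ∀ x : ℝ, x ≤ (Real.log X) ^ C' → x ≤ (Real.log X) ^ (C' + 1) := by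
    intro x hx
    refine hx.trans ?_
    exact pow_le_pow_right₀ hL1 (by omega)
  refine ⟨I + 1, fun i n => if i = 0 ∧ X5 X < (n : ℝ) then 1 else 0,
    fun i l => if i = 0 then al l else 0, M, K, fun i m => if i < I then a i m else 0, c, err,
    ?_, ?_, ?_, ?_, ?_, hMK, ?_, ?_, herr⟩
  · push_cast
    rw [pow_succ]
    have h3 := hpow C'
    nlinarith
  · intro i
    constructor
    · intro n
      refine le_trans ?_ (hpow (C' + 1))
      show |if i = 0 ∧ X5 X < (n : ℝ) then (1 : ℝ) else 0| ≤ 1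
      split_ifs <;> simp
    · refine le_trans ?_ (hpow (C' + 1))
      rcases Nat.eq_zero_or_pos i with rfl | hi
      · refine BDec_tv (fun n : ℕ => if (0 : ℕ) = 0 ∧ X5 X < (n : ℝ) then (1 : ℝ) else 0) ?_ ?_ ?_ X
        · intro n
          show (0 : ℝ) ≤ if (0 : ℕ) = 0 ∧ X5 X < (n : ℝ) then 1 else 0
          split_ifs <;> norm_num
        · intro n
          show (if (0 : ℕ) = 0 ∧ X5 X < (n : ℝ) then (1 : ℝ) else 0) ≤ 1
          split_ifs <;> norm_num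
        · intro n
          show (if (0 : ℕ) = 0 ∧ X5 X < (n : ℝ) then (1 : ℝ) else 0) ≤
            if (0 : ℕ) = 0 ∧ X5 X < ((n + 1 : ℕ) : ℝ) then 1 else 0
          by_cases hn : X5 X < (n : ℝ)
          · rw [if_pos ⟨rfl, hn⟩, if_pos ⟨rfl, by push_cast; linarith⟩]
          · rw [if_neg (fun h => hn h.2)]
            split_ifs <;> norm_num
      · have hi' : i ≠ 0 := by omega
        simp [hi']
  · intro i l
    show |if i = 0 then al l else 0| ≤ _
    split_ifs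
    · exact (hal1 l).trans (hL.trans (le_self_pow₀ hL1 (by omega)))
    · rw [abs_zero]
      exact le_trans zero_le_one (hpow _)
  · intro i l hl
    show (if i = 0 then al l else 0) = 0
    rw [hal2 l hl, ite_self]
  · intro i n
    refine ⟨?_, hbig _ (hac i n).2⟩
    show |if i < I then a i n else 0| ≤ _
    split_ifs
    · exact hbig _ (hac i n).1
    · rw [abs_zero]
      exact le_trans zero_le_one (hpow _)
  · intro i m hm
    have hm' : (if i < I then a i m else 0) ≠ 0 := hm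
    by_cases hi : i < I
    · rw [if_pos hi] at hm'
      exact ha i m hm'
    · rw [if_neg hi] at hm'
      exact absurd rfl hm'
  · intro n hn
    have e1 := hid X (by omega) (lam X) n hn
    have e2 := hidn n hn
    have s1 : ∑ i ∈ range (I + 1), (if i = 0 ∧ X5 X < (n : ℝ) then (1 : ℝ) else 0) *
        ∑ l ∈ n.divisors, (if i = 0 then al l else 0) =
        if X5 X < (n : ℝ) then ∑ l ∈ n.divisors, al l else 0 := by
      rw [Finset.sum_range_succ']
      simp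
    have s2 : ∑ i ∈ range (I + 1), ∑ m ∈ n.divisors,
        (if n / m ≤ K i then (if i < I then a i m else 0) * c i (n / m) else 0) =
        ∑ i ∈ range I, ∑ m ∈ n.divisors, (if n / m ≤ K i then a i m * c i (n / m) else 0) := by
      rw [Finset.sum_range_succ]
      have z : ∑ m ∈ n.divisors,
          (if n / m ≤ K I then (if I < I then a I m else 0) * c I (n / m) else 0) = 0 := by
        simp
      rw [z, add_zero]
      refine Finset.sum_congr rfl fun i hi => Finset.sum_congr rfl fun m _ => ?_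
      rw [if_pos (Finset.mem_range.1 hi)]
    show wty (kp B' X) X (Wl α β (kp B' X) X (lam X)) n = ∑ i ∈ range (I + 1),
      (if i = 0 ∧ X5 X < (n : ℝ) then (1 : ℝ) else 0) *
        ∑ l ∈ n.divisors, (if i = 0 then al l else 0) + ∑ i ∈ range (I + 1), ∑ m ∈ n.divisors,
        (if n / m ≤ K i then (if i < I then a i m else 0) * c i (n / m) else 0) + err n
    rw [s1, s2, e1, add_assoc, ← e2]
    by_cases h5 : X5 X < (n : ℝ)
    · rw [if_pos h5, if_pos h5, if_pos h5]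
      ring
    · rw [if_neg h5, if_neg h5, if_neg h5]
      ring

end Pool.MP_dd84fd_nt.KX
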