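import Pool.Agent.Lib.MP_dd84fd_nt.IY.BFm
import Pool.Agent.Lib.MP_dd84fd_nt.JX.Defs

/-!
# Theorem K (exceptional set `X^th`, `1/4 < th < 1/3`, positivity): the sieve weights (helper63)

Window `(X^τ, X^β]`, `β = bI th e = th - 3 e`; level of the weights `X^ℓ`, `ℓ = lK th τ = (1+th)/2 - 2 τ`.
A type `T` without window set and with `US T ≤ X` has at most three boxes, all of them `> X^β`. With
`x = log X`, `b = β x`, `w = ℓ x`, `l = log log X`, `v j` = logarithm of the left end point of box `j`: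

* minorant `rmK`: `lam ∅ = 1`, `lam {p} = -1` for `v p ≤ x/2 + 6 l`, `lam {p,q} = 2` for
  `v p + v q ≤ w`;
* error `epK`: `lam {p} = vE (v p) + [|v p - x/2| ≤ 20 l]`, `lam {p,q} = - vE (v p) - vE (v q)` for
  `v p + v q ≤ w`, where `vE u = 2 (u - b + 2 l + 1)⁺ / (x - 3 b)` for `u ≤ x - w`, and `0` otherwise.

Values on types `T` without window set, `x - log 2 - 5 l ≤ sg v T ≤ x`: one box: `R = 1`, `E = 0`; two
boxes: `R = 0`, or `R = -1` and `E ≥ 1` (both boxes near `x/2`); three boxes: no box is near `x/2`,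
`R = 0` and `E = vE (v r)` if a pair `T \ {r}` is allowed (at most one is), otherwise `R = -2` and
`2 ≤ E = Σ vE (v j)`.
-/

set_option autoImplicit false

namespace Pool.MP_dd84fd_nt.KX

open Finset Pool.MP_dd84fd_nt.HX Pool.MP_dd84fd_nt.IY

/-- admissible parameters for Theorem K -/
def AdmK (th e τ : ℝ) : Prop := 1 / 4 < th ∧ th < 1 / 3 ∧ 0 < e ∧ 1000 * e ≤ τ ∧
  16 * τ ≤ th - 1 / 4 ∧ 16 * τ ≤ 1 / 3 - th

theorem AdmK.adm {th e τ : ℝ} (h : AdmK th e τ) : JX.Adm th e τ := by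
  obtain ⟨h1, h2, h3, h4, h5, h6⟩ := h
  refine ⟨by linarith, by linarith, h3, by linarith, h4⟩

/-- exponent of the level of the weights -/
noncomputable def lK (th τ : ℝ) : ℝ := (1 + th) / 2 - 2 * τ

/-- `2 (u - b + 2 l + 1)⁺ / (x - 3 b)` for `u ≤ x - w` -/
noncomputable def vE (x b w l u : ℝ) : ℝ :=
  if u ≤ x - w then 2 * max 0 (u - b + 2 * l + 1) / (x - 3 * b) else 0

/-- the weights of the minorant -/
noncomputable def lamR (v : ℕ → ℝ) (x w l : ℝ) (S : Finset ℕ) : ℝ :=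
  if S.card = 0 then 1 else if S.card = 1 then (if sg v S ≤ x / 2 + 6 * l then -1 else 0)
  else if S.card = 2 then (if sg v S ≤ w then 2 else 0) else 0

/-- the weights of the error -/
noncomputable def lamE (v : ℕ → ℝ) (x b w l : ℝ) (S : Finset ℕ) : ℝ :=
  if S.card = 1 then vE x b w l (sg v S) + (if |sg v S - x / 2| ≤ 20 * l then 1 else 0)
  else if S.card = 2 then (if sg v S ≤ w then - ∑ j ∈ S, vE x b w l (v j) else 0) else 0

/-- the minorant -/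
noncomputable def rmK (α β ℓ κ : ℝ) (X : ℕ) : Finset ℕ → ℝ :=
  Wl α β κ X (lamR (vlog κ (zt X)) (Real.log X) (ℓ * Real.log X) (Real.log (Real.log X)))

/-- the majorant of the error -/
noncomputable def epK (α β ℓ κ : ℝ) (X : ℕ) : Finset ℕ → ℝ :=
  Wl α β κ X (lamE (vlog κ (zt X)) (Real.log X) (β * Real.log X) (ℓ * Real.log X)
    (Real.log (Real.log X)))

/-- the majorant `rm + ep` -/
noncomputable def spK (α β ℓ κ : ℝ) (X : ℕ) : Finset ℕ → ℝ :=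
  fun T => rmK α β ℓ κ X T + epK α β ℓ κ X T

/-- coefficient of the type II part: the smooth part of `l` is in the window -/
noncomputable def Ae (z : ℕ) (lam0 : ℕ → ℝ) (Z : ℝ) (l : ℕ) : ℝ :=
  open Classical in if Z ≤ (sm z l : ℝ) ∧ (sm z l : ℝ) < Z * ((sm z l).minFac : ℝ) then
    lam0 (ro z l) * mr (sm z l) else 0

/-- (W2) for the window `(X^α, X^β]` and the type I level `2 X^L` -/
def DecW (α β L : ℝ) (B C2 : ℕ) (ww : ℕ → ℕ → ℝ) : Prop := ∃ X0 : ℕ, ∀ X : ℕ, X0 ≤ X →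
  ∃ (I : ℕ) (γ al : ℕ → ℕ → ℝ) (M K : ℕ → ℕ) (a c : ℕ → ℕ → ℝ) (err : ℕ → ℝ),
    (I : ℝ) ≤ (Real.log X) ^ C2 ∧
    (∀ i, (∀ n, |γ i n| ≤ (Real.log X) ^ C2) ∧
      ∑ n ∈ Ico 1 X, |γ i (n + 1) - γ i n| ≤ (Real.log X) ^ C2) ∧
    (∀ i l, |al i l| ≤ (Real.log X) ^ C2) ∧
    (∀ i (l : ℕ), 2 * (X : ℝ) ^ L < l → al i l = 0) ∧
    (∀ i n, |a i n| ≤ (Real.log X) ^ C2 ∧ |c i n| ≤ (Real.log X) ^ C2) ∧
    (∀ i, (X : ℝ) ^ α / 2 ≤ M i ∧ (M i : ℝ) ≤ (X : ℝ) ^ β ∧ K i * M i ≤ X) ∧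
    (∀ i m, a i m ≠ 0 → M i < m ∧ m ≤ 2 * M i ∧ (m : ℝ) ≤ (X : ℝ) ^ β ∧ m * K i ≤ X) ∧
    (∀ n ∈ Icc 1 X, ww X n = ∑ i ∈ range I, γ i n * ∑ l ∈ n.divisors, al i l +
      ∑ i ∈ range I, ∑ m ∈ n.divisors, (if n / m ≤ K i then a i m * c i (n / m) else 0) +
      err n) ∧
    ∑ n ∈ Icc 1 X, err n ^ 2 ≤ X / (Real.log X) ^ B

/-- the three families for Theorem K -/
noncomputable def rmF (th e τ : ℝ) (B' X : ℕ) : ℕ → ℝ :=
  wty (kp B' X) X (rmK τ (bI th e) (lK th τ) (kp B' X) X)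

/-- the error -/
noncomputable def epF (th e τ : ℝ) (B' X : ℕ) : ℕ → ℝ :=
  wty (kp B' X) X (epK τ (bI th e) (lK th τ) (kp B' X) X)

/-- the majorant -/
noncomputable def spF (th e τ : ℝ) (B' X : ℕ) : ℕ → ℝ :=
  wty (kp B' X) X (spK τ (bI th e) (lK th τ) (kp B' X) X)

end Pool.MP_dd84fd_nt.KX
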