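import Pool.Agent.Lib.MP_dd84fd_nt.KX.Defs
import Pool.Agent.Lib.MP_dd84fd_nt.KX.KAll
import Pool.Agent.Lib.MP_dd84fd_nt.IY.FabDefs
import Pool.Agent.Lib.MP_dd84fd_nt.IY.CDen
import Pool.Agent.Lib.MP_dd84fd_nt.IY.CW
import Pool.Agent.Lib.MP_dd84fd_nt.En.Sing

/-!
# Theorem K: one scale and all scales

From GEN (`JX.GenJ`), the final inequality (`IY.FinalAB`), the decomposition of the three families
(`DecFam`), the inequalities for the types (`TyclK`, `BdK`) and the numerics (`NumKA κ1 κ2`):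
`scaleK`, `finK`.
-/

set_option autoImplicit false

namespace Pool.MP_dd84fd_nt.KX

open Finset Pool.MP_67663b_nt.Odd Pool.MP_dd84fd_nt.En Pool.MP_dd84fd_nt.E2 Pool.MP_dd84fd_nt.LS
open Pool.MP_dd84fd_nt.GX Pool.MP_dd84fd_nt.HX Pool.MP_dd84fd_nt.IX Pool.MP_dd84fd_nt.IY

/-- (W2) for the three families -/
def DecFam : Prop := ∀ B : ℕ, ∃ B0 : ℕ, ∀ B' : ℕ, B0 ≤ B' → ∃ C2 : ℕ, ∀ th e τ : ℝ,
  AdmK th e τ → JX.DecJ B C2 th e τ (rmF th e τ B') ∧ JX.DecJ B C2 th e τ (epF th e τ B') ∧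
    JX.DecJ B C2 th e τ (spF th e τ B')

/-- Lemma CL for the types -/
def TyclK : Prop := ∀ th e τ : ℝ, AdmK th e τ → ∀ B' : ℕ, 1 ≤ B' → ∃ X0 : ℕ, ∀ X : ℕ, X0 ≤ X →
  IY.TyCL (IY.kp B' X) X (rmK τ (bI th e) (lK th τ) (IY.kp B' X) X)
    (epK τ (bI th e) (lK th τ) (IY.kp B' X) X)

/-- bounds for the values -/
def BdK : Prop := ∀ th e τ : ℝ, AdmK th e τ → ∀ B' : ℕ, ∃ X0 : ℕ, ∀ X : ℕ, X0 ≤ X →
  ∀ T : Finset ℕ, |rmK τ (bI th e) (lK th τ) (IY.kp B' X) X T| ≤ 2 ^ 23 ∧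
    |epK τ (bI th e) (lK th τ) (IY.kp B' X) X T| ≤ 2 ^ 23

/-- the bounds for the densities of the families at `(th, e, τ)` -/
def NumK (th e τ a b c : ℝ) : Prop := ∀ B' : ℕ, 1 ≤ B' → ∃ X0 : ℕ, ∀ X : ℕ, X0 ≤ X →
  ∀ n : ℕ, IY.X5 X < n → n ≤ X →
    a ≤ Real.log n * IY.gty (IY.kp B' X) X (rmK τ (bI th e) (lK th τ) (IY.kp B' X) X) n ∧
    Real.log n * IY.gty (IY.kp B' X) X (epK τ (bI th e) (lK th τ) (IY.kp B' X) X) n ≤ b ∧
    Real.log n * IY.gty (IY.kp B' X) X (spK τ (bI th e) (lK th τ) (IY.kp B' X) X) n ≤ c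

/-- the numerics for every `th` -/
def NumKA (κ1 κ2 : ℝ) : Prop := ∀ th : ℝ, 1 / 4 < th → th < 1 / 3 → ∃ τ0 a b c : ℝ, 0 < τ0 ∧
  0 ≤ a ∧ 0 ≤ b ∧ 1 - κ1 * (1 - 3 * th) ^ 2 < a ^ 2 - b ^ 2 ∧ c ^ 2 < 1 + κ2 * (1 - 3 * th) ∧
  ∀ e τ : ℝ, AdmK th e τ → τ ≤ τ0 → NumK th e τ a b c

/-- `n` is exceptional -/
def BadK (κ1 κ2 th : ℝ) (n : ℕ) : Prop :=
  (g n : ℝ) < (1 - κ1 * (1 - 3 * th) ^ 2) * (SS n * JJ n) ∨
    (1 + κ2 * (1 - 3 * th)) * (SS n * JJ n) < g n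

private theorem w1_ev (B' K0 : ℕ) (hK : 1 ≤ K0) (W : ℕ → Finset ℕ → ℝ) (X1 : ℕ)
    (hW : ∀ X, X1 ≤ X → ∀ T, |W X T| ≤ K0) :
    W1 K0 (B' + 3) (fun X => IY.wty (IY.kp B' X) X (W X))
      (fun X => IY.gty (IY.kp B' X) X (W X)) := by
  obtain ⟨X0, h⟩ := IY.w1_i B' K0 hK (fun X => if X1 ≤ X then W X else fun _ => 0) (by
    intro X T
    by_cases hX : X1 ≤ X
    · simp only [hX, if_true]
      exact hW X hX T
    · simp only [hX, if_false, abs_zero]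
      exact Nat.cast_nonneg _)
  refine ⟨max X0 X1, fun X hX => ?_⟩
  have h1 := h X ((le_max_left _ _).trans hX)
  have h2 : X1 ≤ X := (le_max_right _ _).trans hX
  simp only [h2, if_true] at h1
  exact h1

private theorem majI_ev (B' K0 : ℕ) (W : ℕ → Finset ℕ → ℝ) (X1 : ℕ)
    (hW : ∀ X, X1 ≤ X → ∀ T, |W X T| ≤ K0) :
    MajI (fun X => IY.wty (IY.kp B' X) X (W X))
      (fun X => IY.gty (IY.kp B' X) X (W X)) := by
  have h0 := IY.majI_i B' K0 (fun X => if X1 ≤ X then W X else fun _ => 0) (by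
    intro X T
    by_cases hX : X1 ≤ X
    · simp only [hX, if_true]
      exact hW X hX T
    · simp only [hX, if_false, abs_zero]
      exact Nat.cast_nonneg _)
  intro A B
  obtain ⟨D0, h⟩ := h0 A B
  refine ⟨D0, fun D' hD' => ?_⟩
  obtain ⟨X0, h⟩ := h D' hD'
  refine ⟨max X0 X1, fun X hX θ hθ => ?_⟩
  have h1 := h X ((le_max_left _ _).trans hX) θ hθ
  have h2 : X1 ≤ X := (le_max_right _ _).trans hX
  unfold WI fI at h1 ⊢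
  simp only [h2, if_true] at h1
  exact h1

private theorem ks_JJ (n : ℕ) : 0 ≤ JJ n := by
  unfold JJ
  refine Finset.sum_nonneg fun m _ => ?_
  exact div_nonneg zero_le_one (mul_nonneg (Real.log_natCast_nonneg _) (Real.log_natCast_nonneg _))

private theorem ks_SJ (n : ℕ) : 0 ≤ SS n * JJ n := by
  have s1 : 2 * Pool.MP_dd84fd_nt.En.C2 ≤ SS n := SS_ge n
  have s2 : 0 < Pool.MP_dd84fd_nt.En.C2 := C2_pos
  exact mul_nonneg (by linarith) (ks_JJ n)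

/-- one scale -/
theorem scaleK (κ1 κ2 : ℝ) (hG : JX.GenJ) (hF : IY.FinalAB) (hD : DecFam) (hT : TyclK)
    (hBd : BdK) (hN : NumKA κ1 κ2) : ∃ C : ℕ, ∀ th : ℝ, 1 / 4 < th → th < 1 / 3 →
    ScG (BadK κ1 κ2 th) C th := by
  classical
  obtain ⟨B, hB⟩ := hG 5
  obtain ⟨B0, hB0⟩ := hD B
  obtain ⟨B', hB'0, hB'1⟩ : ∃ B' : ℕ, B0 ≤ B' ∧ 1 ≤ B' := ⟨max B0 1, le_max_left _ _, le_max_right _ _⟩
  obtain ⟨C2, hC2⟩ := hB0 B' hB'0
  obtain ⟨C, hC⟩ := hB (2 ^ 24) (B' + 3) C2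
  refine ⟨C + 1, fun th hth hth2 K => ?_⟩
  obtain ⟨τ0, a, b, c, hτ0, ha, hb, hl, hu, hnum⟩ := hN th hth hth2
  obtain ⟨τ, hτ⟩ : ∃ τ : ℝ, τ = min τ0 (min ((th - 1 / 4) / 16) ((1 / 3 - th) / 16)) := ⟨_, rfl⟩
  have t0 : 0 < τ := by
    rw [hτ]
    exact lt_min hτ0 (lt_min (by linarith) (by linarith))
  have t1 : τ ≤ τ0 := by rw [hτ]; exact min_le_left _ _
  have t2 : τ ≤ (th - 1 / 4) / 16 := by
    rw [hτ]; exact (min_le_right _ _).trans (min_le_left _ _)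
  have t3 : τ ≤ (1 / 3 - th) / 16 := by
    rw [hτ]; exact (min_le_right _ _).trans (min_le_right _ _)
  obtain ⟨e, he⟩ : ∃ e : ℝ, e = τ / 1000 := ⟨_, rfl⟩
  have he0 : 0 < e := by rw [he]; positivity
  have hAK : AdmK th e τ := ⟨hth, hth2, he0, by rw [he]; linarith, by linarith, by linarith⟩
  have hA : JX.Adm th e τ := hAK.adm
  obtain ⟨d1, d2, d3⟩ := hC2 th e τ hAK
  obtain ⟨Xb, hXb⟩ := hBd th e τ hAK B'
  have bR : ∀ X : ℕ, Xb ≤ X → ∀ T : Finset ℕ,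
      |rmK τ (bI th e) (lK th τ) (IY.kp B' X) X T| ≤ ((2 ^ 24 : ℕ) : ℝ) :=
    fun X hX T => (hXb X hX T).1.trans (by norm_num)
  have bE : ∀ X : ℕ, Xb ≤ X → ∀ T : Finset ℕ,
      |epK τ (bI th e) (lK th τ) (IY.kp B' X) X T| ≤ ((2 ^ 24 : ℕ) : ℝ) :=
    fun X hX T => (hXb X hX T).2.trans (by norm_num)
  have bS : ∀ X : ℕ, Xb ≤ X → ∀ T : Finset ℕ,
      |spK τ (bI th e) (lK th τ) (IY.kp B' X) X T| ≤ ((2 ^ 24 : ℕ) : ℝ) := by
    intro X hX T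
    obtain ⟨s1, s2⟩ := hXb X hX T
    calc |spK τ (bI th e) (lK th τ) (IY.kp B' X) X T| ≤
          |rmK τ (bI th e) (lK th τ) (IY.kp B' X) X T| +
          |epK τ (bI th e) (lK th τ) (IY.kp B' X) X T| := abs_add_le _ _
      _ ≤ 2 ^ 23 + 2 ^ 23 := add_le_add s1 s2
      _ = ((2 ^ 24 : ℕ) : ℝ) := by norm_num
  obtain ⟨D1, hD1⟩ := hC th e τ hA _ _ (w1_ev B' _ (by norm_num)
    (fun X => rmK τ (bI th e) (lK th τ) (IY.kp B' X) X) Xb bR) d1 (majI_ev B' _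
    (fun X => rmK τ (bI th e) (lK th τ) (IY.kp B' X) X) Xb bR) K
  obtain ⟨D2, hD2⟩ := hC th e τ hA _ _ (w1_ev B' _ (by norm_num)
    (fun X => epK τ (bI th e) (lK th τ) (IY.kp B' X) X) Xb bE) d2 (majI_ev B' _
    (fun X => epK τ (bI th e) (lK th τ) (IY.kp B' X) X) Xb bE) K
  obtain ⟨D3, hD3⟩ := hC th e τ hA _ _ (w1_ev B' _ (by norm_num)
    (fun X => spK τ (bI th e) (lK th τ) (IY.kp B' X) X) Xb bS) d3 (majI_ev B' _
    (fun X => spK τ (bI th e) (lK th τ) (IY.kp B' X) X) Xb bS) K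
  obtain ⟨δ, hδ, hab, hc⟩ : ∃ δ : ℝ, 0 < δ ∧
      1 - κ1 * (1 - 3 * th) ^ 2 ≤ a ^ 2 - b ^ 2 - δ ∧ c ^ 2 + δ ≤ 1 + κ2 * (1 - 3 * th) := by
    refine ⟨min (a ^ 2 - b ^ 2 - (1 - κ1 * (1 - 3 * th) ^ 2)) (1 + κ2 * (1 - 3 * th) - c ^ 2),
      lt_min (by linarith) (by linarith), ?_, ?_⟩
    · have := min_le_left (a ^ 2 - b ^ 2 - (1 - κ1 * (1 - 3 * th) ^ 2))
        (1 + κ2 * (1 - 3 * th) - c ^ 2)
      linarith
    · have := min_le_right (a ^ 2 - b ^ 2 - (1 - κ1 * (1 - 3 * th) ^ 2))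
        (1 + κ2 * (1 - 3 * th) - c ^ 2)
      linarith
  obtain ⟨D4, hD4⟩ := hF B' hB'1 a b c δ hδ ha hb
  obtain ⟨D', hD'⟩ : ∃ D' : ℕ, D' = max (max D1 D2) (max D3 D4) := ⟨_, rfl⟩
  obtain ⟨X1, h1⟩ := hD1 D' (by rw [hD']; exact (le_max_left _ _).trans (le_max_left _ _))
  obtain ⟨X2, h2⟩ := hD2 D' (by rw [hD']; exact (le_max_right _ _).trans (le_max_left _ _))
  obtain ⟨X3, h3⟩ := hD3 D' (by rw [hD']; exact (le_max_left _ _).trans (le_max_right _ _))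
  obtain ⟨X4, h4⟩ := hD4 D' (by rw [hD']; exact (le_max_right _ _).trans (le_max_right _ _))
  obtain ⟨X5', h5⟩ := hnum e τ hAK t1 B' hB'1
  obtain ⟨X6, h6⟩ := hT th e τ hAK B' hB'1
  obtain ⟨X7, h7⟩ := MP_log_large 3
  obtain ⟨X8, h8⟩ : ∃ X8 : ℕ, ∀ X : ℕ, X8 ≤ X → (3 : ℝ) ≤ (X : ℝ) ^ (e / 4) := by
    have h := ((tendsto_rpow_atTop (by positivity : (0 : ℝ) < e / 4)).comp
      (tendsto_natCast_atTop_atTop (R := ℝ))).eventually_ge_atTop 3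
    obtain ⟨X0, h1⟩ := Filter.eventually_atTop.1 h
    exact ⟨X0, fun X hX => h1 X hX⟩
  refine ⟨max (max (max X1 X2) (max X3 X4)) (max (max X5' X6) (max X7 (max X8 1))),
    fun X hX => ?_⟩
  simp only [max_le_iff] at hX
  obtain ⟨⟨⟨x1, x2⟩, x3, x4⟩, ⟨x5, x6⟩, x7, x8, x9⟩ := hX
  obtain ⟨Da, Ea, a1, a2, a3, a4⟩ := h1 X x1
  obtain ⟨Db, Eb, b1, b2, b3, b4⟩ := h2 X x2
  obtain ⟨Dc, Ec, c1, c2, c3, c4⟩ := h3 X x3
  have hL : 3 ≤ Real.log (X : ℝ) := h7 X x7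
  have hX0 : (0 : ℝ) < X := by exact_mod_cast (by omega : 0 < X)
  refine ⟨Da ∪ (Db ∪ Dc), ?_, ?_, ?_⟩
  · have i1 : ((Da ∪ (Db ∪ Dc)).card : ℝ) ≤ Da.card + (Db.card + Dc.card) := by
      have := (card_union_le Da (Db ∪ Dc)).trans
        (Nat.add_le_add_left (card_union_le Db Dc) _)
      exact_mod_cast this
    have i2 : (0 : ℝ) ≤ Real.log X ^ C := by positivity
    calc ((Da ∪ (Db ∪ Dc)).card : ℝ) ≤ 3 * Real.log X ^ C := by linarith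
      _ ≤ Real.log X * Real.log X ^ C := mul_le_mul_of_nonneg_right hL i2
      _ = Real.log X ^ (C + 1) := by ring
  · intro d hd
    rcases mem_union.1 hd with hd | hd
    · exact (a2 d hd).1
    rcases mem_union.1 hd with hd | hd
    · exact (b2 d hd).1
    · exact (c2 d hd).1
  · have hsub : (Icc 1 X).filter (fun n => X < 2 * n ∧ Even n ∧
        (∀ d ∈ Da ∪ (Db ∪ Dc), ¬ d ∣ n) ∧ BadK κ1 κ2 th n) ⊆ Ea ∪ (Eb ∪ Ec) := by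
      intro n hn
      rw [mem_filter, mem_Icc] at hn
      obtain ⟨⟨n1, n2⟩, n3, n4, n5, n6⟩ := hn
      by_contra hcon
      rw [mem_union, mem_union, not_or, not_or] at hcon
      obtain ⟨k1, k2, k3⟩ := hcon
      have q1 := a4 n n3 n2 n4 k1 fun d hd => n5 d (mem_union_left _ hd)
      have q2 := b4 n n3 n2 n4 k2 fun d hd => n5 d (mem_union_right _ (mem_union_left _ hd))
      have q3 := c4 n n3 n2 n4 k3 fun d hd => n5 d (mem_union_right _ (mem_union_right _ hd))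
      obtain ⟨r1, r2⟩ := h4 X x4 _ _ (h6 X x6) (fun m hm hmX => h5 X x5 m hm hmX)
        n n3 n2 n4 q1 q2 q3
      have hSJ := ks_SJ n
      have r3 := (mul_le_mul_of_nonneg_right hab hSJ).trans r1
      have r4 := r2.trans (mul_le_mul_of_nonneg_right hc hSJ)
      rcases n6 with n6 | n6
      · linarith
      · linarith
    have i1 : (((Icc 1 X).filter (fun n => X < 2 * n ∧ Even n ∧
        (∀ d ∈ Da ∪ (Db ∪ Dc), ¬ d ∣ n) ∧ BadK κ1 κ2 th n)).card : ℝ) ≤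
        Ea.card + (Eb.card + Ec.card) := by
      have := (card_le_card hsub).trans ((card_union_le Ea (Eb ∪ Ec)).trans
        (Nat.add_le_add_left (card_union_le Eb Ec) _))
      exact_mod_cast this
    have i2 : (X : ℝ) ^ th = (X : ℝ) ^ (e / 4) * (X : ℝ) ^ (th - e / 4) := by
      rw [← Real.rpow_add hX0]
      congr 1
      ring
    rw [i2]
    have i3 : 0 ≤ (X : ℝ) ^ (th - e / 4) := by positivity
    calc _ ≤ 3 * (X : ℝ) ^ (th - e / 4) := by linarith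
      _ ≤ _ := mul_le_mul_of_nonneg_right (h8 X x8) i3

/-- Theorem K -/
theorem finK (κ1 κ2 : ℝ) (hκ1 : 0 ≤ κ1) (hκ2 : 0 ≤ κ2) (hG : JX.GenJ) (hF : IY.FinalAB)
    (hD : DecFam) (hT : TyclK) (hBd : BdK) (hN : NumKA κ1 κ2) : ∃ C : ℕ, ∀ θ ε : ℝ,
    1 / 4 ≤ θ → θ < 1 / 3 → 0 < ε → ∀ K : ℕ, ∃ X0 : ℕ, ∀ X : ℕ, X0 ≤ X → ∃ D : Finset ℕ,
      (D.card : ℝ) ≤ (Real.log X) ^ C ∧
      (∀ d ∈ D, (Real.log X) ^ K ≤ (d : ℝ) ∧ (d : ℝ) ≤ (X : ℝ) ^ (1 - θ)) ∧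
      ∀ P : ℕ → Prop, ∀ _ : DecidablePred P,
        (∀ n, P n → Even n ∧ (∀ d ∈ D, (d : ℝ) ≤ (n : ℝ) ^ (1 - θ) → ¬ d ∣ n) ∧
          BadK κ1 κ2 θ n) →
        (((Icc 1 X).filter P).card : ℝ) ≤ (X : ℝ) ^ (θ + ε) := by
  classical
  obtain ⟨C, hC⟩ := scaleK κ1 κ2 hG hF hD hT hBd hN
  refine ⟨C + 2, fun θ ε h1 h2 hε => allG (BadK κ1 κ2 θ) C θ ε (by linarith) (by linarith) hε
    fun K => ?_⟩
  obtain ⟨t, ht⟩ : ∃ t : ℝ, t = min (θ + ε / 4) ((θ + 1 / 3) / 2) := ⟨_, rfl⟩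
  have t1 : t ≤ θ + ε / 4 := by rw [ht]; exact min_le_left _ _
  have t2 : t < 1 / 3 := by rw [ht]; exact (min_le_right _ _).trans_lt (by linarith)
  have t3 : θ < t := by rw [ht]; exact lt_min (by linarith) (by linarith)
  obtain ⟨X0, hX0⟩ := hC t (by linarith) t2 K
  refine ⟨max X0 1, fun X hX => ?_⟩
  obtain ⟨D, g1, g2, g3⟩ := hX0 X ((le_max_left _ _).trans hX)
  have hX1 : (1 : ℝ) ≤ X := by exact_mod_cast (le_max_right _ _).trans hX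
  refine ⟨D, g1, g2, ?_⟩
  refine le_trans ?_ (g3.trans (Real.rpow_le_rpow_of_exponent_le hX1 t1))
  refine Nat.cast_le.2 (card_le_card ?_)
  intro n hn
  rw [mem_filter] at hn ⊢
  obtain ⟨n1, n2, n3, n4, n5⟩ := hn
  refine ⟨n1, n2, n3, n4, ?_⟩
  have hSJ := ks_SJ n
  have e1 : (1 - 3 * t) ^ 2 ≤ (1 - 3 * θ) ^ 2 := by
    apply pow_le_pow_left₀ (by linarith) (by linarith)
  have e2 : (1 - κ1 * (1 - 3 * θ) ^ 2) * (SS n * JJ n) ≤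
      (1 - κ1 * (1 - 3 * t) ^ 2) * (SS n * JJ n) := by
    refine mul_le_mul_of_nonneg_right ?_ hSJ
    have := mul_le_mul_of_nonneg_left e1 hκ1
    linarith
  have e3 : (1 + κ2 * (1 - 3 * t)) * (SS n * JJ n) ≤
      (1 + κ2 * (1 - 3 * θ)) * (SS n * JJ n) := by
    refine mul_le_mul_of_nonneg_right ?_ hSJ
    have : κ2 * (1 - 3 * t) ≤ κ2 * (1 - 3 * θ) := mul_le_mul_of_nonneg_left (by linarith) hκ2
    linarith
  unfold BadK at n5 ⊢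
  rcases n5 with n5 | n5
  · left; linarith
  · right; linarith

end Pool.MP_dd84fd_nt.KX
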