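import Pool.Agent.Lib.MP_dd84fd_nt.KX.Val
import Pool.Agent.Lib.MP_dd84fd_nt.KX.Dec
import Pool.Agent.Lib.MP_dd84fd_nt.KX.KScale

/-!
# Theorem K: the three families (helper63)

`tyclK`, `bdK`, `decFam` (the hypotheses `TyclK`, `BdK`, `DecFam` of `KX.finK`), and the values of
`rmK`, `epK` on the types of numbers in `(X5 X / 2, X]` (`kval`).
-/

set_option autoImplicit false

namespace Pool.MP_dd84fd_nt.KX

open Finset Pool.MP_dd84fd_nt.HX Pool.MP_dd84fd_nt.IY

/-! ### Parameters -/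

private theorem k_big (c : ℝ) (hc : 0 < c) : ∃ X0 : ℕ, ∀ X : ℕ, X0 ≤ X →
    1 ≤ X ∧ 4 ≤ Real.log X ∧ 1 ≤ Real.log (Real.log X) ∧ 2 ≤ zt X ∧ (X : ℝ) < (zt X : ℝ) ^ 11 ∧
      30 * Real.log (Real.log X) + 30 < c * Real.log X ∧ (X : ℝ) ^ (1 / 10 : ℝ) ≤ zt X := by
  obtain ⟨X1, hX1⟩ := b_par (1 / 8) (3 / 8) (by norm_num) (by norm_num) (by norm_num) 0
  have ht : Filter.Tendsto (fun X : ℕ => Real.log (X : ℝ)) Filter.atTop Filter.atTop :=
    Real.tendsto_log_atTop.comp tendsto_natCast_atTop_atTop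
  have h1 := (Real.isLittleO_log_id_atTop.bound (show (0 : ℝ) < c / 100 by positivity))
  have h2 : ∀ᶠ X : ℕ in Filter.atTop, ‖Real.log (Real.log (X : ℝ))‖ ≤
      c / 100 * ‖id (Real.log (X : ℝ))‖ := ht.eventually h1
  have h3 : ∀ᶠ X : ℕ in Filter.atTop, 100 / c ≤ Real.log (X : ℝ) := ht.eventually_ge_atTop _
  obtain ⟨X2, hX2⟩ := Filter.eventually_atTop.1 (h2.and h3)
  refine ⟨max X1 X2, fun X hX => ?_⟩
  obtain ⟨g1, g2, g3, g4, g5, _, g7, _⟩ := hX1 X (le_trans (le_max_left _ _) hX)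
  obtain ⟨g8, g9⟩ := hX2 X (le_trans (le_max_right _ _) hX)
  have g2' : 4 ≤ Real.log (X : ℝ) := by
    have := g2
    push_cast at this
    linarith
  refine ⟨g1, g2', g3, g4, g7, ?_, g5⟩
  rw [Real.norm_eq_abs, Real.norm_eq_abs, id, abs_of_nonneg (by linarith : (0:ℝ) ≤ Real.log X)] at g8
  have g10 := (le_abs_self _).trans g8
  have g11 : 100 ≤ c * Real.log X := by
    rw [div_le_iff₀ hc] at g9
    linarith
  linarith

/-- the inequalities between the parameters -/
theorem par_k {th e τ κ x l : ℝ} (hA : AdmK th e τ) (hl : 1 ≤ l) (hκ : 11 * κ ≤ 1)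
    (hx : 30 * l + 30 < τ * x) :
    ParK κ x (τ * x) (bI th e * x) (lK th τ * x) l ∧
      2 * (bI th e * x) + 2 * l + 1 ≤ lK th τ * x ∧ τ * x < x / 10 - l := by
  obtain ⟨h1, h2, h3, h4, h5, h6⟩ := hA
  have ht0 : 0 < τ := by linarith
  have hx0 : 0 < x := by
    by_contra hc
    push Not at hc
    have : τ * x ≤ 0 := mul_nonpos_of_nonneg_of_nonpos ht0.le hc
    linarith
  have m1 : 0 ≤ (4 * th - 1 - 64 * τ) * x := mul_nonneg (by linarith) hx0.le
  have m2 : 0 ≤ (τ - 1000 * e) * x := mul_nonneg (by linarith) hx0.le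
  have m3 : 0 ≤ (1 - 3 * th - 48 * τ) * x := mul_nonneg (by linarith) hx0.le
  have m4 : 0 < e * x := mul_pos h3 hx0
  have m5 : 0 ≤ (1 / 12 - 16 * τ) * x := by
    by_cases hh : 1 / 12 - 16 * τ < 0
    · linarith
    · exact mul_nonneg (by linarith) hx0.le
  unfold bI lK
  refine ⟨⟨hl, hκ, by positivity, ?_, ?_, ?_, ?_, ?_, ?_⟩, ?_, ?_⟩
  · nlinarith
  · nlinarith
  · nlinarith
  · nlinarith
  · nlinarith
  · nlinarith
  · nlinarith
  · nlinarith

/-- the types of the numbers in `(X5 X / 2, X]` -/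
theorem ty_k {th e τ : ℝ} (hA : AdmK th e τ) (B' : ℕ) (hB : 1 ≤ B') : ∃ X0 : ℕ, ∀ X : ℕ, X0 ≤ X →
    ∀ T : Finset ℕ, X5 X / 2 ≤ US (kp B' X) (zt X) T → US (kp B' X) (zt X) T ≤ X →
    T.card ≤ 10 ∧
    (¬ gdT (vlog (kp B' X) (zt X)) (kp B' X) (τ * Real.log X) (bI th e * Real.log X) T →
      TyK (vlog (kp B' X) (zt X)) (kp B' X) (Real.log X) (τ * Real.log X)
        (bI th e * Real.log X) (lK th τ * Real.log X) (Real.log (Real.log X)) T) ∧
    (T.card = 1 →
      ¬ gdT (vlog (kp B' X) (zt X)) (kp B' X) (τ * Real.log X) (bI th e * Real.log X) T) := by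
  have ht0 : 0 < τ := by
    obtain ⟨h1, h2, h3, h4, h5, h6⟩ := hA
    linarith
  obtain ⟨X1, hX1⟩ := k_big τ ht0
  obtain ⟨X3, hX3⟩ := kp_par B' hB
  refine ⟨max X1 X3, fun X hX => ?_⟩
  simp only [max_le_iff] at hX
  obtain ⟨g1, g2, g3, g4, g5, g6, gz⟩ := hX1 X hX.1
  obtain ⟨k1, k2, k3, _⟩ := hX3 X hX.2
  intro T hT1 hT2
  set κ := kp B' X with hκ
  set x := Real.log (X : ℝ) with hx
  set l := Real.log x with hl
  obtain ⟨p1, p2, p3⟩ := par_k (κ := κ) hA g3 (by linarith) g6
  have hz1 : 1 ≤ zt X := by omega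
  have hzr : (1 : ℝ) ≤ zt X := by exact_mod_cast hz1
  have hzj : ∀ j, x / 10 - l ≤ vlog κ (zt X) j := by
    intro j
    rw [vlog_eq κ _ j hz1]
    have h3 : Real.log ((X : ℝ) ^ (1 / 10 : ℝ)) ≤ Real.log (zt X) :=
      Real.log_le_log (Real.rpow_pos_of_pos (by exact_mod_cast g1) _) gz
    rw [Real.log_rpow (by exact_mod_cast g1)] at h3
    have h4 : 0 ≤ κ * (j : ℝ) := by positivity
    linarith
  have hlog2 : Real.log 2 < 1 := by
    have := Real.log_two_lt_d9
    linarith
  have hlog2' : 0 < Real.log 2 := Real.log_pos (by norm_num)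
  have hXp : (0 : ℝ) < X := by exact_mod_cast g1
  have hxp : 0 < x := by linarith
  have hX5 : 0 < X5 X := by
    unfold X5
    positivity
  have hUp : 0 < US κ (zt X) T := lt_of_lt_of_le (by positivity) hT1
  have hlo : x - (Real.log 2 + 5 * l) ≤ sg (vlog κ (zt X)) T := by
    rw [← log_US κ _ hz1]
    have h3 := Real.log_le_log (by positivity) hT1
    have h4 : Real.log (X5 X / 2) = x - (Real.log 2 + 5 * l) := by
      unfold X5
      rw [Real.log_div (by positivity) (by norm_num), Real.log_div hXp.ne' (by positivity),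
        Real.log_pow]
      push_cast
      ring
    rw [h4] at h3
    exact h3
  have hhi : sg (vlog κ (zt X)) T ≤ x := by
    rw [← log_US κ _ hz1]
    exact Real.log_le_log hUp hT2
  have hT8 : T.card ≤ 10 := by
    by_contra hc
    have hc9 : 11 ≤ T.card := by omega
    have h5 : (zt X : ℝ) ^ T.card ≤ US κ (zt X) T := by
      unfold US
      rw [← Finset.prod_const]
      refine Finset.prod_le_prod (fun _ _ => by positivity) fun j _ => ?_
      unfold ub
      have h6 : (1 : ℝ) ≤ Real.exp (κ * j) := Real.one_le_exp (by positivity)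
      nlinarith
    have h7 : (zt X : ℝ) ^ 11 ≤ (zt X : ℝ) ^ T.card := pow_le_pow_right₀ hzr hc9
    linarith
  refine ⟨hT8, fun hg => ⟨p1, by linarith, hhi, fun j _ => lt_of_lt_of_le p3 (hzj j), hg⟩,
    fun hc1 => ?_⟩
  obtain ⟨j, rfl⟩ := Finset.card_eq_one.1 hc1
  rintro ⟨S, hS, hS1, hS2⟩
  obtain ⟨q1, q2, q3, q4, q5, q6, q7, q8, q9⟩ := p1
  rcases Finset.subset_singleton_iff.1 hS with rfl | rfl
  · have hsg0 : sg (vlog κ (zt X)) (∅ : Finset ℕ) = 0 := by simp [sg]
    rw [hsg0] at hS1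
    linarith
  · linarith

/-- the values in terms of the sums over subsets -/
theorem rep_k {α β ℓ κ : ℝ} {X : ℕ} {T : Finset ℕ} (hT : T.card ≤ 10) :
    (gdT (vlog κ (zt X)) κ (α * Real.log X) (β * Real.log X) T →
      rmK α β ℓ κ X T = 0 ∧ epK α β ℓ κ X T = 0) ∧
    (¬ gdT (vlog κ (zt X)) κ (α * Real.log X) (β * Real.log X) T →
      rmK α β ℓ κ X T = ∑ S ∈ T.powerset, lamR (vlog κ (zt X)) (Real.log X) (ℓ * Real.log X)
        (Real.log (Real.log X)) S ∧
      epK α β ℓ κ X T = ∑ S ∈ T.powerset, lamE (vlog κ (zt X)) (Real.log X) (β * Real.log X)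
        (ℓ * Real.log X) (Real.log (Real.log X)) S) := by
  unfold rmK epK Wl wT
  rw [if_pos hT, if_pos hT]
  constructor
  · intro h
    rw [if_pos h, if_pos h]
    exact ⟨rfl, rfl⟩
  · intro h
    rw [if_neg h, if_neg h]
    exact ⟨rfl, rfl⟩

/-- Lemma CL for the types -/
theorem tyclK : TyclK := by
  intro th e τ hA B' hB
  obtain ⟨X0, h⟩ := ty_k hA B' hB
  refine ⟨X0, fun X hX T hT1 hT2 => ?_⟩
  obtain ⟨h1, h2, h3⟩ := h X hX T hT1 hT2
  obtain ⟨e1, e2⟩ := rep_k (α := τ) (β := bI th e) (ℓ := lK th τ) (κ := kp B' X) (X := X) h1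
  by_cases hg : gdT (vlog (kp B' X) (zt X)) (kp B' X) (τ * Real.log X) (bI th e * Real.log X) T
  · obtain ⟨f1, f2⟩ := e1 hg
    rw [f1, f2]
    refine ⟨fun hc => absurd hg (h3 hc), fun _ => ?_⟩
    norm_num
  · obtain ⟨f1, f2⟩ := e2 hg
    rw [f1, f2]
    exact (h2 hg).cl

/-! ### The values on the types, for the numerics -/

/-- the values of `rmK`, `epK` on the types of the numbers in `(X5 X / 2, X]` -/
theorem kval {th e τ : ℝ} (hA : AdmK th e τ) (B' : ℕ) (hB : 1 ≤ B') : ∃ X0 : ℕ, ∀ X : ℕ, X0 ≤ X →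
    ∀ T : Finset ℕ, X5 X / 2 ≤ US (kp B' X) (zt X) T → US (kp B' X) (zt X) T ≤ X →
    (T.card = 1 → rmK τ (bI th e) (lK th τ) (kp B' X) X T = 1 ∧
      epK τ (bI th e) (lK th τ) (kp B' X) X T = 0) ∧
    (T.card = 2 →
      - rmK τ (bI th e) (lK th τ) (kp B' X) X T ≤
        ∑ j ∈ T, nr (Real.log X) (Real.log (Real.log X)) (vlog (kp B' X) (zt X) j) ∧
      epK τ (bI th e) (lK th τ) (kp B' X) X T ≤
        ∑ j ∈ T, (vE (Real.log X) (bI th e * Real.log X) (lK th τ * Real.log X)
          (Real.log (Real.log X)) (vlog (kp B' X) (zt X) j) +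
          nr (Real.log X) (Real.log (Real.log X)) (vlog (kp B' X) (zt X) j))) ∧
    (T.card = 3 → (rmK τ (bI th e) (lK th τ) (kp B' X) X T = 0 ∧
        epK τ (bI th e) (lK th τ) (kp B' X) X T = 0) ∨
      ((∀ j ∈ T, bI th e * Real.log X - 1 ≤ vlog (kp B' X) (zt X) j ∧
        vlog (kp B' X) (zt X) j ≤ Real.log X - lK th τ * Real.log X) ∧
      - rmK τ (bI th e) (lK th τ) (kp B' X) X T ≤ 2 ∧
      epK τ (bI th e) (lK th τ) (kp B' X) X T ≤
        ∑ j ∈ T, vE (Real.log X) (bI th e * Real.log X) (lK th τ * Real.log X)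
          (Real.log (Real.log X)) (vlog (kp B' X) (zt X) j))) ∧
    (4 ≤ T.card → rmK τ (bI th e) (lK th τ) (kp B' X) X T = 0 ∧
      epK τ (bI th e) (lK th τ) (kp B' X) X T = 0) := by
  obtain ⟨X0, h⟩ := ty_k hA B' hB
  obtain ⟨X1, h4⟩ := k_big τ (by
    obtain ⟨h1, h2, h3, h4, h5, h6⟩ := hA
    linarith)
  obtain ⟨X2, h5⟩ := kp_par B' hB
  refine ⟨max (max X0 X1) X2, fun X hX T hT1 hT2 => ?_⟩
  simp only [max_le_iff] at hX
  obtain ⟨h1, h2, h3⟩ := h X hX.1.1 T hT1 hT2
  obtain ⟨_, _, g3, _, _, g6, _⟩ := h4 X hX.1.2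
  obtain ⟨k1, k2, k3, _⟩ := h5 X hX.2
  obtain ⟨p1, p2, p3⟩ := par_k (κ := kp B' X) hA g3 (by linarith) g6
  obtain ⟨e1, e2⟩ := rep_k (α := τ) (β := bI th e) (ℓ := lK th τ) (κ := kp B' X) (X := X) h1
  have q6 := p1.h3b
  have n0 : ∀ u, 0 ≤ vE (Real.log X) (bI th e * Real.log X) (lK th τ * Real.log X)
      (Real.log (Real.log X)) u := fun u => vE_nonneg _ _ _ (by linarith)
  have n1 : ∀ u, 0 ≤ nr (Real.log X) (Real.log (Real.log X)) u := fun u => nr_nonneg _ _ _
  by_cases hg : gdT (vlog (kp B' X) (zt X)) (kp B' X) (τ * Real.log X) (bI th e * Real.log X) T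
  · obtain ⟨f1, f2⟩ := e1 hg
    rw [f1, f2]
    refine ⟨fun hc => absurd hg (h3 hc), fun _ => ⟨?_, ?_⟩, fun _ => Or.inl ⟨rfl, rfl⟩,
      fun _ => ⟨rfl, rfl⟩⟩
    · rw [neg_zero]
      exact Finset.sum_nonneg fun j _ => n1 _
    · exact Finset.sum_nonneg fun j _ => add_nonneg (n0 _) (n1 _)
  · obtain ⟨f1, f2⟩ := e2 hg
    rw [f1, f2]
    have hK := h2 hg
    refine ⟨hK.val1, fun hc => ?_, fun hc => ?_, fun hc => absurd hK.card_le (by omega)⟩
    · obtain ⟨p, q, hpq, hT⟩ := Finset.card_eq_two.1 hc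
      obtain ⟨e3, e4⟩ := hK.val2 hpq hT
      rw [e3, e4, hT, Finset.sum_pair hpq, Finset.sum_pair hpq]
      refine ⟨?_, le_rfl⟩
      have l1 := hK.lo
      have l2 := hK.up
      rw [hT, sg_two _ hpq] at l1 l2
      have n3 := n1 (vlog (kp B' X) (zt X) p)
      have n4 := n1 (vlog (kp B' X) (zt X) q)
      split_ifs with c1 c2 c2
      · have m1 : nr (Real.log X) (Real.log (Real.log X)) (vlog (kp B' X) (zt X) p) = 1 := by
          unfold nr
          rw [if_pos]
          rw [abs_le]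
          constructor <;> linarith
        linarith
      · linarith
      · linarith
      · linarith
    · obtain ⟨p, q, r, d1, d2, d3, hT⟩ := Finset.card_eq_three.1 hc
      obtain ⟨e3, e4⟩ := hK.val3 d1 d2 d3 hT
      have s3 : ∀ f : ℕ → ℝ, ∑ j ∈ T, f j = f p + f q + f r := by
        intro f
        rw [hT, Finset.sum_insert (by simp [d1, d2]), Finset.sum_pair d3]
        ring
      rw [e3, e4, s3]
      have l1 := hK.lo
      have l2 := hK.up
      rw [hT, sg_three _ d1 d2 d3] at l1 l2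
      have b1 := hK.box (j := p) (by rw [hT]; simp)
      have b2 := hK.box (j := q) (by rw [hT]; simp)
      have b3 := hK.box (j := r) (by rw [hT]; simp)
      have v1 := n0 (vlog (kp B' X) (zt X) p)
      have v2 := n0 (vlog (kp B' X) (zt X) q)
      have v3 := n0 (vlog (kp B' X) (zt X) r)
      obtain ⟨q1, q2, q3, q4, q5, q6, q7, q8, q9⟩ := p1
      by_cases c1 : vlog (kp B' X) (zt X) p + vlog (kp B' X) (zt X) q ≤ lK th τ * Real.log X
      · obtain ⟨t1, t2⟩ := hK.one_pair d1 d2 d3 hT c1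
        rw [if_pos c1, if_neg (not_le.2 t1), if_neg (not_le.2 t2), if_pos c1,
          if_neg (not_le.2 t1), if_neg (not_le.2 t2)]
        by_cases c : vlog (kp B' X) (zt X) r ≤ Real.log X - lK th τ * Real.log X
        · right
          refine ⟨?_, by norm_num, by linarith⟩
          rw [hT]
          intro j hj
          simp only [mem_insert, mem_singleton] at hj
          rcases hj with rfl | rfl | rfl
          · exact ⟨b1.le, by linarith⟩
          · exact ⟨b2.le, by linarith⟩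
          · exact ⟨b3.le, c⟩
        · left
          rw [vE_zero (u := vlog (kp B' X) (zt X) r) (not_le.1 c)]
          constructor
          · norm_num
          · ring
      · by_cases c2 : vlog (kp B' X) (zt X) p + vlog (kp B' X) (zt X) r ≤ lK th τ * Real.log X
        · have hT' : T = {p, r, q} := by rw [hT, Finset.pair_comm]
          obtain ⟨t1, t2⟩ := hK.one_pair d2 d1 d3.symm hT' c2
          have t3 : ¬ vlog (kp B' X) (zt X) q + vlog (kp B' X) (zt X) r ≤
            lK th τ * Real.log X := by linarith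
          rw [if_neg c1, if_pos c2, if_neg t3, if_neg c1, if_pos c2, if_neg t3]
          by_cases c : vlog (kp B' X) (zt X) q ≤ Real.log X - lK th τ * Real.log X
          · right
            refine ⟨?_, by norm_num, by linarith⟩
            rw [hT]
            intro j hj
            simp only [mem_insert, mem_singleton] at hj
            rcases hj with rfl | rfl | rfl
            · exact ⟨b1.le, by linarith⟩
            · exact ⟨b2.le, c⟩
            · exact ⟨b3.le, by linarith⟩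
          · left
            rw [vE_zero (u := vlog (kp B' X) (zt X) q) (not_le.1 c)]
            constructor
            · norm_num
            · ring
        · by_cases c3 : vlog (kp B' X) (zt X) q + vlog (kp B' X) (zt X) r ≤ lK th τ * Real.log X
          · rw [if_neg c1, if_neg c2, if_pos c3, if_neg c1, if_neg c2, if_pos c3]
            by_cases c : vlog (kp B' X) (zt X) p ≤ Real.log X - lK th τ * Real.log X
            · right
              refine ⟨?_, by norm_num, by linarith⟩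
              rw [hT]
              intro j hj
              simp only [mem_insert, mem_singleton] at hj
              rcases hj with rfl | rfl | rfl
              · exact ⟨b1.le, c⟩
              · exact ⟨b2.le, by linarith⟩
              · exact ⟨b3.le, by linarith⟩
            · left
              rw [vE_zero (u := vlog (kp B' X) (zt X) p) (not_le.1 c)]
              constructor
              · norm_num
              · ring
          · rw [if_neg c1, if_neg c2, if_neg c3, if_neg c1, if_neg c2, if_neg c3]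
            push Not at c1 c2 c3
            right
            refine ⟨?_, by norm_num, by linarith⟩
            rw [hT]
            intro j hj
            simp only [mem_insert, mem_singleton] at hj
            rcases hj with rfl | rfl | rfl
            · exact ⟨b1.le, by linarith⟩
            · exact ⟨b2.le, by linarith⟩
            · exact ⟨b3.le, by linarith⟩

/-! ### Bounds and supports -/

theorem vE_le {x b w l u : ℝ} (h : 3 * b < x) (h2 : 2 * b + 2 * l + 1 ≤ w) :
    vE x b w l u ≤ 2 := by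
  unfold vE
  split_ifs with hu
  · rw [div_le_iff₀ (by linarith)]
    have : max 0 (u - b + 2 * l + 1) ≤ x - 3 * b := max_le (by linarith) (by linarith)
    linarith
  · norm_num

theorem lamR_bd (v : ℕ → ℝ) (x w l : ℝ) (S : Finset ℕ) : |lamR v x w l S| ≤ 2 := by
  unfold lamR
  split_ifs <;> norm_num

theorem lamE_bd {v : ℕ → ℝ} {x b w l : ℝ} (h : 3 * b < x) (h2 : 2 * b + 2 * l + 1 ≤ w)
    (S : Finset ℕ) : |lamE v x b w l S| ≤ 4 := by
  have n0 : ∀ u, 0 ≤ vE x b w l u := fun u => vE_nonneg _ _ _ h.le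
  have n1 : ∀ u, vE x b w l u ≤ 2 := fun u => vE_le h h2
  unfold lamE
  by_cases c1 : S.card = 1
  · rw [if_pos c1]
    have m0 := n0 (sg v S)
    have m1 := n1 (sg v S)
    rw [abs_le]
    split_ifs <;> constructor <;> linarith
  · rw [if_neg c1]
    by_cases c2 : S.card = 2
    · rw [if_pos c2]
      have m2 : 0 ≤ ∑ j ∈ S, vE x b w l (v j) := Finset.sum_nonneg fun j _ => n0 _
      have m3 : ∑ j ∈ S, vE x b w l (v j) ≤ 4 := by
        have := Finset.sum_le_card_nsmul S (fun j => vE x b w l (v j)) 2 (fun j _ => n1 _)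
        rw [c2] at this
        norm_num at this
        exact this
      rw [abs_le]
      split_ifs <;> constructor <;> linarith
    · rw [if_neg c2]
      norm_num

theorem lamR_supp {v : ℕ → ℝ} {κ x a b w l : ℝ} (p : ParK κ x a b w l) {S : Finset ℕ}
    (h : lamR v x w l S ≠ 0) : sg v S ≤ w := by
  obtain ⟨q1, q2, q3, q4, q5, q6, q7, q8, q9⟩ := p
  unfold lamR at h
  split_ifs at h with c0 c1 c2 c3 c4
  · have : S = ∅ := Finset.card_eq_zero.1 c0
    rw [this]
    simp only [sg, Finset.sum_empty]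
    linarith
  · linarith
  · exact absurd rfl h
  · exact c4
  · exact absurd rfl h
  · exact absurd rfl h

theorem lamE_supp {v : ℕ → ℝ} {κ x a b w l : ℝ} (p : ParK κ x a b w l) {S : Finset ℕ}
    (h : lamE v x b w l S ≠ 0) : sg v S ≤ w := by
  obtain ⟨q1, q2, q3, q4, q5, q6, q7, q8, q9⟩ := p
  by_contra hc
  push Not at hc
  apply h
  unfold lamE
  have e1 : vE x b w l (sg v S) = 0 := vE_zero (by linarith)
  have e2 : ¬ |sg v S - x / 2| ≤ 20 * l := by
    intro h2
    have := (abs_le.1 h2).2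
    linarith
  rw [e1, if_neg e2, if_neg (not_le.2 hc)]
  split_ifs <;> norm_num

private theorem wl_bd {α β κ : ℝ} {X : ℕ} {lam : Finset ℕ → ℝ} (h : ∀ S, |lam S| ≤ 2 ^ 13)
    (T : Finset ℕ) : |Wl α β κ X lam T| ≤ 2 ^ 23 := by
  unfold Wl wT
  split_ifs with h8 hg
  · simp
  · calc |∑ S ∈ T.powerset, lam S| ≤ ∑ S ∈ T.powerset, |lam S| := Finset.abs_sum_le_sum_abs _ _
      _ ≤ ∑ _S ∈ T.powerset, (2 : ℝ) ^ 13 := Finset.sum_le_sum fun S _ => h S
      _ = 2 ^ T.card * 2 ^ 13 := by
          rw [Finset.sum_const, Finset.card_powerset, nsmul_eq_mul]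
          push_cast
          ring
      _ ≤ 2 ^ 10 * 2 ^ 13 := by
          have : (2 : ℝ) ^ T.card ≤ 2 ^ 10 := pow_le_pow_right₀ (by norm_num) h8
          linarith
      _ ≤ 2 ^ 23 := by norm_num
  · simp

/-- the bounds and the supports of the weights for large `X` -/
theorem lam_k {th e τ : ℝ} (hA : AdmK th e τ) : ∃ X0 : ℕ, ∀ X : ℕ, X0 ≤ X → ∀ κ : ℝ,
    (∀ S, |lamR (vlog κ (zt X)) (Real.log X) (lK th τ * Real.log X) (Real.log (Real.log X)) S| ≤
      2) ∧
    (∀ S, |lamE (vlog κ (zt X)) (Real.log X) (bI th e * Real.log X) (lK th τ * Real.log X)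
      (Real.log (Real.log X)) S| ≤ 4) ∧
    (∀ S, lamR (vlog κ (zt X)) (Real.log X) (lK th τ * Real.log X) (Real.log (Real.log X)) S ≠
      0 → sg (vlog κ (zt X)) S ≤ lK th τ * Real.log X) ∧
    (∀ S, lamE (vlog κ (zt X)) (Real.log X) (bI th e * Real.log X) (lK th τ * Real.log X)
      (Real.log (Real.log X)) S ≠ 0 → sg (vlog κ (zt X)) S ≤ lK th τ * Real.log X) := by
  have ht0 : 0 < τ := by
    obtain ⟨h1, h2, h3, h4, h5, h6⟩ := hA
    linarith
  obtain ⟨X1, hX1⟩ := k_big τ ht0
  refine ⟨X1, fun X hX κ => ?_⟩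
  obtain ⟨g1, g2, g3, g4, g5, g6, gz⟩ := hX1 X hX
  obtain ⟨p1, p2, p3⟩ := par_k (κ := 0) hA g3 (by norm_num) g6
  have h3b := p1.h3b
  refine ⟨fun S => lamR_bd _ _ _ _ S, fun S => lamE_bd (by linarith) p2 S,
    fun S h => lamR_supp p1 h, fun S h => lamE_supp p1 h⟩

/-- bounds for the values -/
theorem bdK : BdK := by
  intro th e τ hA B'
  obtain ⟨X0, h⟩ := lam_k hA
  refine ⟨X0, fun X hX T => ?_⟩
  obtain ⟨h1, h2, _, _⟩ := h X hX (kp B' X)
  exact ⟨wl_bd (fun S => (h1 S).trans (by norm_num)) T,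
    wl_bd (fun S => (h2 S).trans (by norm_num)) T⟩

/-! ### (W2) -/

/-- the type function of the majorant `rm + ep` -/
theorem spK_eq (α β ℓ κ : ℝ) (X : ℕ) : spK α β ℓ κ X = Wl α β κ X
    (fun S => lamR (vlog κ (zt X)) (Real.log X) (ℓ * Real.log X) (Real.log (Real.log X)) S +
      lamE (vlog κ (zt X)) (Real.log X) (β * Real.log X) (ℓ * Real.log X)
        (Real.log (Real.log X)) S) := by
  funext T
  unfold spK rmK epK Wl wT
  split_ifs
  · simp
  · rw [← Finset.sum_add_distrib]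
  · simp

theorem decJ_of_decW {B C2 : ℕ} {th e τ : ℝ} {ww : ℕ → ℕ → ℝ}
    (h : DecW τ (bI th e) (JX.lv th e) B C2 ww) : JX.DecJ B C2 th e τ ww := by
  have e2 : ∀ X : ℕ, IX.yB th e X = (X : ℝ) ^ bI th e := fun X => rfl
  have e3 : ∀ X : ℕ, JX.ZJ th e X = 2 * (X : ℝ) ^ JX.lv th e := fun X => rfl
  unfold JX.DecJ
  unfold DecW at h
  simp only [e2, e3]
  exact h

/-- (W2) for the three families -/
theorem decFam : DecFam := by
  intro B
  obtain ⟨B0, h⟩ := decK_types B
  refine ⟨B0, fun B' hB' => ?_⟩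
  obtain ⟨C2, h⟩ := h B' hB'
  refine ⟨C2, fun th e τ hA => ?_⟩
  obtain ⟨X0, hl⟩ := lam_k hA
  have hlog : 0 < Real.log (3 / 2 : ℝ) := Real.log_pos (by norm_num)
  obtain ⟨h1, h2, h3, h4, h5, h6⟩ := hA
  have ht0 : 0 < τ := by linarith
  have a2 : τ + 1 / 10 < bI th e := by unfold bI; linarith
  have a3 : bI th e < 1 / 2 := by unfold bI; linarith
  have a4 : lK th τ + τ < JX.lv th e := by
    unfold lK JX.lv
    rw [lt_min_iff]
    constructor <;> linarith
  refine ⟨?_, ?_, ?_⟩
  · refine decJ_of_decW (h τ (bI th e) (lK th τ) (JX.lv th e) ht0 a2 a3 a4 (fun X => lamR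
      (vlog (kp B' X) (zt X)) (Real.log X) (lK th τ * Real.log X) (Real.log (Real.log X)))
      ⟨X0, fun X hX => ?_⟩)
    obtain ⟨m1, m2, m3, m4⟩ := hl X hX (kp B' X)
    refine ⟨fun S => (m1 S).trans (by norm_num), fun S hS => ?_⟩
    have := m3 S hS
    rw [sub_sub_cancel]
    linarith
  · refine decJ_of_decW (h τ (bI th e) (lK th τ) (JX.lv th e) ht0 a2 a3 a4 (fun X => lamE
      (vlog (kp B' X) (zt X)) (Real.log X) (bI th e * Real.log X) (lK th τ * Real.log X)
      (Real.log (Real.log X))) ⟨X0, fun X hX => ?_⟩)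
    obtain ⟨m1, m2, m3, m4⟩ := hl X hX (kp B' X)
    refine ⟨fun S => (m2 S).trans (by norm_num), fun S hS => ?_⟩
    have := m4 S hS
    rw [sub_sub_cancel]
    linarith
  · have h7 := h τ (bI th e) (lK th τ) (JX.lv th e) ht0 a2 a3 a4 (fun X S => lamR
      (vlog (kp B' X) (zt X)) (Real.log X) (lK th τ * Real.log X) (Real.log (Real.log X)) S +
      lamE (vlog (kp B' X) (zt X)) (Real.log X) (bI th e * Real.log X) (lK th τ * Real.log X)
      (Real.log (Real.log X)) S) ⟨X0, fun X hX => ?_⟩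
    · have h6 : spF th e τ B' = fun X => wty (kp B' X) X (Wl τ (bI th e) (kp B' X) X (fun S =>
          lamR (vlog (kp B' X) (zt X)) (Real.log X) (lK th τ * Real.log X)
            (Real.log (Real.log X)) S +
          lamE (vlog (kp B' X) (zt X)) (Real.log X) (bI th e * Real.log X)
            (lK th τ * Real.log X) (Real.log (Real.log X)) S)) := by
        funext X
        unfold spF
        rw [spK_eq]
      rw [h6]
      exact decJ_of_decW h7
    · obtain ⟨m1, m2, m3, m4⟩ := hl X hX (kp B' X)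
      refine ⟨fun S => (abs_add_le _ _).trans ((add_le_add (m1 S) (m2 S)).trans (by norm_num)),
        fun S hS => ?_⟩
      by_contra hc
      push Not at hc
      rw [sub_sub_cancel] at hc
      apply hS
      have n1 : lamR (vlog (kp B' X) (zt X)) (Real.log X) (lK th τ * Real.log X)
          (Real.log (Real.log X)) S = 0 := by
        by_contra hn
        have := m3 S hn
        linarith
      have n2 : lamE (vlog (kp B' X) (zt X)) (Real.log X) (bI th e * Real.log X)
          (lK th τ * Real.log X) (Real.log (Real.log X)) S = 0 := by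
        by_contra hn
        have := m4 S hn
        linarith
      show lamR _ _ _ _ S + lamE _ _ _ _ _ S = 0
      rw [n1, n2, add_zero]

end Pool.MP_dd84fd_nt.KX
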