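import Pool.Agent.Lib.MP_dd84fd_nt.KX.NKc
import Pool.Agent.Lib.MP_dd84fd_nt.KX.KScale
import Pool.Agent.Lib.MP_dd84fd_nt.IY.NLg

/-!
# Theorem K, numerics: the densities (helper88)
-/

set_option autoImplicit false

namespace Pool.MP_dd84fd_nt.KX

open Finset Pool.MP_67663b_nt.Odd Pool.MP_dd84fd_nt.En Pool.MP_dd84fd_nt.E2 Pool.MP_dd84fd_nt.HX
  Pool.MP_dd84fd_nt.IY

open Classical in
/-- one side, for a family `W` -/
theorem NKd_side (θ ε c1 c2 c3 : ℝ) (h1 : 1 / 4 ≤ θ) (h2 : θ < 1 / 3) (hε : 0 < ε)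
    (hε2 : ε ≤ 1 / 20) (hc1 : 0 ≤ c1) (hc2 : 0 ≤ c2) (hc3 : 0 ≤ c3) (B' : ℕ) :
    ∃ X0 : ℕ, ∀ X : ℕ, X0 ≤ X → ∀ W : Finset ℕ → ℝ, ∀ n : ℕ, X5 X < n → n ≤ X →
      (∀ k : ℕ, 2 ≤ k →
        Simp (kp B' X) (zt X) k → (zt X : ℝ) ≤ (n : ℝ) / k →
        (∀ j ∈ ty (kp B' X) (zt X) k, j < bx (kp B' X) (zt X) ((n : ℝ) / k)) →
        W (insert (bx (kp B' X) (zt X) ((n : ℝ) / k)) (ty (kp B' X) (zt X) k)) ≤
          c1 * (if k ∈ KT X n θ then 1 else 0) +
          c2 * (if k ∈ IY.PS X (1 / 2 - ε) (1 / 2 + ε) then 1 else 0) +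
          c3 * (if k ∈ IY.PS X θ ((1 - θ) / 2) then
            Real.log k / Real.log X - θ + ε else 0)) →
      Real.log n * gty (kp B' X) X W n ≤
        W (insert (bx (kp B' X) (zt X) ((n : ℝ) / (1 : ℕ))) (ty (kp B' X) (zt X) 1)) +
          (c1 * (64 / 100 * (1 - 3 * θ) ^ 2) + c2 * (20 * ε) +
            c3 * (62 / 100 * (1 - 3 * θ) ^ 2 + 2 * ε)) := by
  obtain ⟨X1, hl⟩ := log_one ⟨20, 0, 0, fun _ _ => 0⟩ (by norm_num) B'
  obtain ⟨X2, hS1⟩ := T_sum θ h1 h2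
  obtain ⟨X3, hS2⟩ := E_sum θ h1 h2
  obtain ⟨X4, hS3⟩ := E_one θ h1 h2
  obtain ⟨X5', hS4⟩ := N_one ε hε hε2
  obtain ⟨X6, h5⟩ := X5_ge
  obtain ⟨X7, hz6⟩ := zt_log
  obtain ⟨X8, h8⟩ := logn_ge (1 / 10) (by norm_num)
  refine ⟨X1 + X2 + X3 + X4 + X5' + X6 + X7 + X8 + 2, fun X hX W n hn1 hn2 hW => ?_⟩
  set κ := kp B' X with hκ
  set z := zt X with hz
  set L := Real.log (X : ℝ) with hL
  obtain ⟨h51, -⟩ := h5 X (by omega)
  obtain ⟨hz2, -⟩ := hz6 X (by omega)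
  have hz2' : (2 : ℝ) ≤ zt X := by exact_mod_cast hz2
  have hnz : (zt X : ℝ) ≤ n := by linarith
  have hn2' : (2 : ℝ) ≤ n := by linarith
  have hlogn : 0 < Real.log (n : ℝ) := Real.log_pos (by linarith)
  have hlogn' : 0 ≤ Real.log (n : ℝ) := hlogn.le
  have hX1' : 1 < X := by omega
  have hXR : (1 : ℝ) < X := by exact_mod_cast hX1'
  have hL0 : 0 < L := Real.log_pos hXR
  have hn0 : (0 : ℝ) < n := by linarith
  have t1 := hS1 X (by omega) n hn1 hn2
  have t2 := hS2 X (by omega) n hn1 hn2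
  have t3 := hS3 X (by omega) n hn1 hn2
  have t4 := hS4 X (by omega) n hn1 hn2
  set q : ℕ → ℝ := fun k => Real.log n / (k * Real.log ((n : ℝ) / k)) with hq
  set K : Finset ℕ := (Icc 2 X).filter (fun k : ℕ => Simp κ z k ∧ (z : ℝ) ≤ (n : ℝ) / k ∧
    ∀ j ∈ ty κ z k, j < bx κ z ((n : ℝ) / k)) with hK
  have hterm : ∀ k ∈ K, Real.log n * (vty κ z W ((n : ℝ) / k) k /
      (k * Real.log ((n : ℝ) / k))) ≤
      c1 * (if k ∈ KT X n θ then q k else 0) +
        c2 * (if k ∈ IY.PS X (1 / 2 - ε) (1 / 2 + ε) then q k else 0) +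
        c3 * (if k ∈ IY.PS X θ ((1 - θ) / 2) then (Real.log k / L - θ) * q k + ε * q k
          else 0) := by
    intro k hkK
    rw [hK, Finset.mem_filter, Finset.mem_Icc] at hkK
    obtain ⟨⟨hk2', hkX⟩, hk2, hk3, hk4⟩ := hkK
    have hk1 : 1 ≤ k := by omega
    have hk0 : (0 : ℝ) < k := by exact_mod_cast hk1
    have hv : vty κ z W ((n : ℝ) / k) k =
        W (insert (bx κ z ((n : ℝ) / k)) (ty κ z k)) := by
      unfold vty
      rw [if_pos ⟨hk2, hk3, hk4⟩]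
    obtain ⟨-, hlk, -, hr2⟩ := hl X (by omega) n k hn1 hn2 hk1 hk2 hk3 hk4
    have hq0 : 0 ≤ q k := div_nonneg hlogn' (by positivity)
    have e : Real.log n * (vty κ z W ((n : ℝ) / k) k / (k * Real.log ((n : ℝ) / k))) =
        W (insert (bx κ z ((n : ℝ) / k)) (ty κ z k)) * q k := by
      rw [hv, hq]
      ring
    rw [e]
    refine (mul_le_mul_of_nonneg_right (hW k hk2' hk2 hk3 hk4) hq0).trans (le_of_eq ?_)
    split_ifs <;> ring
  -- terms outside `K` vanish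
  have hzero : ∀ k ∈ Icc 2 X, k ∉ K → Real.log n * (vty κ z W ((n : ℝ) / k) k /
      (k * Real.log ((n : ℝ) / k))) = 0 := by
    intro k hk hkK
    have hv : vty κ z W ((n : ℝ) / k) k = 0 := by
      unfold vty
      rw [if_neg]
      intro hcon
      apply hkK
      rw [hK, Finset.mem_filter]
      exact ⟨hk, hcon⟩
    rw [hv, zero_div, mul_zero]
  have hsplit : Icc 1 X = insert 1 (Icc 2 X) := by
    ext k
    simp only [Finset.mem_Icc, Finset.mem_insert]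
    omega
  have h1n : (1 : ℕ) ∉ Icc 2 X := by
    simp
  have hg2 : gty κ X W n =
      vty κ z W ((n : ℝ) / (1 : ℕ)) 1 / ((1 : ℕ) * Real.log ((n : ℝ) / (1 : ℕ))) +
      ∑ k ∈ Icc 2 X, vty κ z W ((n : ℝ) / k) k / (k * Real.log ((n : ℝ) / k)) := by
    unfold gty
    rw [if_pos ⟨hn1, hn2⟩, hsplit, Finset.sum_insert h1n]
  have hsimp : Simp κ z 1 := by
    refine ⟨⟨one_ne_zero, ?_⟩, squarefree_one, ?_⟩
    · intro p hp
      simp at hp
    · intro p hp
      simp at hp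
  have hty : ty κ z 1 = ∅ := by
    unfold ty
    simp
  have hone : Real.log n * (vty κ z W ((n : ℝ) / (1 : ℕ)) 1 /
      ((1 : ℕ) * Real.log ((n : ℝ) / (1 : ℕ)))) =
      W (insert (bx κ z ((n : ℝ) / (1 : ℕ))) (ty κ z 1)) := by
    unfold vty
    rw [if_pos ⟨hsimp, by rw [Nat.cast_one, div_one]; exact hnz, by
      rw [hty]
      intro j hj
      simp at hj⟩]
    rw [Nat.cast_one, div_one, one_mul]
    field_simp
  rw [hg2, mul_add, hone, Finset.mul_sum]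
  refine add_le_add le_rfl ?_
  have hKsub : K ⊆ Icc 2 X := Finset.filter_subset _ _
  rw [← Finset.sum_subset hKsub hzero]
  refine (Finset.sum_le_sum hterm).trans ?_
  rw [Finset.sum_add_distrib, Finset.sum_add_distrib, ← Finset.mul_sum, ← Finset.mul_sum,
    ← Finset.mul_sum]
  -- sums over `K` of indicator functions
  have hqn : ∀ k ∈ K, 0 ≤ q k := by
    intro k hkK
    rw [hK, Finset.mem_filter, Finset.mem_Icc] at hkK
    obtain ⟨⟨hk2', hkX⟩, hk2, hk3, hk4⟩ := hkK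
    obtain ⟨-, hlk, -, -⟩ := hl X (by omega) n k hn1 hn2 (by omega) hk2 hk3 hk4
    exact div_nonneg hlogn' (by positivity)
  have hqPS : ∀ u w : ℝ, 0 < u → w ≤ 9 / 10 → ∀ k ∈ IY.PS X u w, 0 ≤ q k := by
    intro u w hu hw k hk
    obtain ⟨hp, _, _, hk3⟩ := of_mem_PS hX1' hk
    have hk0 : (0 : ℝ) < k := by exact_mod_cast hp.pos
    refine div_nonneg hlogn' (mul_nonneg hk0.le ?_)
    have h9 := (h8 X (by omega) n hn1 hn2).1
    rw [← hL] at h9 hk3
    rw [Real.log_div hn0.ne' hk0.ne']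
    nlinarith
  have hqKT : ∀ k ∈ KT X n θ, 0 ≤ q k := by
    intro k hk
    unfold KT at hk
    rw [Finset.mem_filter] at hk
    obtain ⟨_, p, q', hp, _, _, _, _, h10, _⟩ := hk
    have h11 : 0 ≤ Real.log (p : ℝ) := Real.log_natCast_nonneg p
    exact div_nonneg hlogn' (mul_nonneg (Nat.cast_nonneg k) (h11.trans h10))
  have hind : ∀ (S : Finset ℕ) (f : ℕ → ℝ), (∀ k ∈ S, 0 ≤ f k) →
      ∑ k ∈ K, (if k ∈ S then f k else 0) ≤ ∑ k ∈ S, f k := by
    intro S f hf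
    rw [← Finset.sum_filter]
    exact Finset.sum_le_sum_of_subset_of_nonneg (fun k hk => (Finset.mem_filter.mp hk).2)
      fun k hk _ => hf k hk
  have u1 : ∑ k ∈ K, (if k ∈ KT X n θ then q k else 0) ≤ 64 / 100 * (1 - 3 * θ) ^ 2 :=
    (hind _ q hqKT).trans t1
  have u2 : ∑ k ∈ K, (if k ∈ IY.PS X (1 / 2 - ε) (1 / 2 + ε) then q k else 0) ≤ 20 * ε :=
    (hind _ q (hqPS _ _ (by linarith) (by linarith))).trans t4
  have hq3 := hqPS θ ((1 - θ) / 2) (by linarith) (by linarith)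
  have u3 : ∑ k ∈ K, (if k ∈ IY.PS X θ ((1 - θ) / 2) then (Real.log k / L - θ) * q k + ε * q k
      else 0) ≤ 62 / 100 * (1 - 3 * θ) ^ 2 + 2 * ε := by
    refine (hind _ (fun k => (Real.log k / L - θ) * q k + ε * q k) ?_).trans ?_
    · intro k hk
      obtain ⟨_, _, h12, _⟩ := of_mem_PS hX1' hk
      have h13 : θ ≤ Real.log k / L := by
        rw [le_div_iff₀ hL0]
        exact h12
      have h14 := hq3 k hk
      have h15 : 0 ≤ (Real.log k / L - θ) * q k := mul_nonneg (by linarith) h14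
      have h16 : 0 ≤ ε * q k := mul_nonneg hε.le h14
      exact add_nonneg h15 h16
    · rw [Finset.sum_add_distrib, ← Finset.mul_sum]
      have h17 : ε * ∑ k ∈ IY.PS X θ ((1 - θ) / 2), q k ≤ ε * 2 :=
        mul_le_mul_of_nonneg_left t3 hε.le
      linarith
  exact add_le_add (add_le_add (mul_le_mul_of_nonneg_left u1 hc1)
    (mul_le_mul_of_nonneg_left u2 hc2)) (mul_le_mul_of_nonneg_left u3 hc3)

/-- the value at `k = 1` -/
theorem nk_one (th e τ : ℝ) (hA : AdmK th e τ) (B' : ℕ) (hB : 1 ≤ B') : ∃ X0 : ℕ, ∀ X : ℕ,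
    X0 ≤ X → ∀ n : ℕ, X5 X < n → n ≤ X → ∀ T : Finset ℕ,
    T = insert (bx (kp B' X) (zt X) ((n : ℝ) / (1 : ℕ))) (ty (kp B' X) (zt X) 1) →
    rmK τ (bI th e) (lK th τ) (kp B' X) X T = 1 ∧ epK τ (bI th e) (lK th τ) (kp B' X) X T = 0 := by
  classical
  obtain ⟨a1, a2, a3, a4, a5, a6⟩ := hA
  have hτ0 : 0 < τ := by linarith
  obtain ⟨X1, hX1⟩ := nhc_big _ hτ0 B' hB
  obtain ⟨X2, hX2⟩ := sg_n B' hB
  obtain ⟨X3, hX3⟩ := X5_ge
  refine ⟨X1 + X2 + X3 + 2, ?_⟩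
  intro X hX n hn hnX T hT
  obtain ⟨g1, g2, g3, g4, g5, g6, g7, g8, g9⟩ := hX1 X (by omega)
  obtain ⟨h51, -⟩ := hX3 X (by omega)
  set x := Real.log (X : ℝ) with hxd
  set l := Real.log x with hld
  set κ := kp B' X with hκd
  set z := zt X with hzd
  have hsimp : Simp κ z 1 := by
    refine ⟨⟨one_ne_zero, ?_⟩, squarefree_one, ?_⟩
    · intro p hp
      simp at hp
    · intro p hp
      simp at hp
  have hty : ty κ z 1 = ∅ := by
    unfold ty
    simp
  have hnz : (z : ℝ) ≤ (n : ℝ) / (1 : ℕ) := by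
    rw [Nat.cast_one, div_one]
    linarith
  have hj : ∀ j ∈ ty κ z 1, j < bx κ z ((n : ℝ) / (1 : ℕ)) := by
    rw [hty]
    intro j hj
    simp at hj
  obtain ⟨-, ht1, ht2⟩ := hX2 X (by omega) n 1 hn hnX le_rfl hsimp hnz hj
  rw [← hT] at ht1 ht2
  set j0 := bx κ z ((n : ℝ) / (1 : ℕ)) with hj0
  have hTT : T = {j0} := by
    rw [hT, hty]
    simp
  set b := bI th e * x with hb
  set w := lK th τ * x with hw
  have hx0 : 0 < x := by linarith
  have hbx : b = th * x - 3 * (e * x) := by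
    rw [hb]
    unfold bI
    ring
  have hwx : w = x / 2 + th * x / 2 - 2 * (τ * x) := by
    rw [hw]
    unfold lK
    ring
  have hex : 1000 * (e * x) ≤ τ * x := by
    have := mul_le_mul_of_nonneg_right a4 hx0.le
    linarith
  have hex0 : 0 ≤ e * x := by positivity
  have hth1 : 16 * (τ * x) ≤ th * x - x / 4 := by
    have := mul_le_mul_of_nonneg_right a5 hx0.le
    linarith
  have hth2 : 16 * (τ * x) ≤ x / 3 - th * x := by
    have := mul_le_mul_of_nonneg_right a6 hx0.le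
    linarith
  have hlog2 : Real.log 2 < 7 / 10 := by
    have := Real.log_two_lt_d9
    linarith
  have hlog3 : Real.log (3 / 2) < 1 / 2 := by
    have h1 : Real.log (3 / 2) < 3 / 2 - 1 :=
      Real.log_lt_sub_one_of_pos (by norm_num) (by norm_num)
    linarith
  have hκ1 : 11 * κ ≤ 1 := by linarith
  have hpar : ParK κ x (τ * x) b w l := by
    refine ⟨g3, hκ1, by positivity, ?_, ?_, ?_, ?_, ?_, ?_⟩ <;> linarith
  have hlo : x - 6 * l ≤ sg (vlog κ z) T := by linarith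
  have hz1 : 1 ≤ z := by omega
  have hvge : ∀ j, τ * x < vlog κ z j := by
    intro j
    rw [vlog_eq κ z j hz1]
    have h1 : 0 ≤ κ * (j : ℝ) := by positivity
    have h2 : τ * x < x / 10 := by linarith
    linarith
  have hg : ¬ gdT (vlog κ z) κ (τ * x) b T := by
    rintro ⟨S, hS, hS1, hS2⟩
    rw [hTT] at hS
    rcases Finset.subset_singleton_iff.1 hS with h | h
    · rw [h] at hS1
      simp only [sg, Finset.sum_empty] at hS1
      have : 0 < τ * x := by positivity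
      linarith
    · rw [h, ← hTT] at hS2
      have := hpar.h3b
      linarith
  have hTy : TyK (vlog κ z) κ x (τ * x) b w l T := ⟨hpar, hlo, ht2, fun j _ => hvge j, hg⟩
  have hc : T.card = 1 := by rw [hTT]; simp
  obtain ⟨e1, e2⟩ := hTy.val1 hc
  have hT10 : T.card ≤ 10 := by omega
  constructor
  · unfold rmK Wl wT
    rw [if_pos hT10, if_neg hg]
    exact e1
  · unfold epK Wl wT
    rw [if_pos hT10, if_neg hg]
    exact e2

/-- **the numerics for Theorem K** -/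
theorem numKA : NumKA 5 4 := by
  classical
  intro th hth1 hth2
  set x := 1 - 3 * th with hx
  have hx0 : 0 < x := by rw [hx]; linarith
  have hx4 : x ≤ 1 / 4 := by rw [hx]; linarith
  have hx2 : 0 < x ^ 2 := by positivity
  refine ⟨x ^ 2 / 100000, 1 - 129 / 100 * x ^ 2, 1255 / 1000 * x + 129 / 100 * x ^ 2,
    1 + 1255 / 1000 * x + 129 / 100 * x ^ 2, by positivity, by nlinarith, by positivity, ?_, ?_, ?_⟩
  · nlinarith [mul_pos hx0 hx2]
  · nlinarith [mul_pos hx0 hx2]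
  intro e τ hA hτ B' hB
  have hA' := hA
  obtain ⟨a1, a2, a3, a4, a5, a6⟩ := hA'
  have hτ0 : 0 < τ := by linarith
  set θ := th - 5 * τ with hθ
  have hθ1 : 1 / 4 ≤ θ := by rw [hθ]; linarith
  have hθ2 : θ < 1 / 3 := by rw [hθ]; linarith
  set ε := x ^ 2 / 100000 with hε
  have hε0 : 0 < ε := by rw [hε]; positivity
  have hxx : x ^ 2 ≤ x / 4 := by nlinarith
  have hε1 : ε ≤ x / 400000 := by rw [hε]; linarith
  have hε2 : ε ≤ 1 / 20 := by linarith
  have hy : 1 - 3 * θ = x + 15 * τ := by rw [hθ, hx]; ring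
  have hβ : 1 - 3 * bI th e = x + 9 * e := by
    unfold bI
    rw [hx]
    ring
  have hβ0 : 0 < 1 - 3 * bI th e := by rw [hβ]; linarith
  have hy2 : (1 - 3 * θ) ^ 2 ≤ x ^ 2 * (1001 / 1000) := by
    rw [hy]
    have h1 : x + 15 * τ ≤ x * (10001 / 10000) := by linarith
    have h2 : (x + 15 * τ) ^ 2 ≤ (x * (10001 / 10000)) ^ 2 :=
      pow_le_pow_left₀ (by linarith) h1 2
    refine h2.trans ?_
    nlinarith
  have hc3 : 0 ≤ 2 / (1 - 3 * bI th e) := div_nonneg (by norm_num) hβ0.le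
  have hc3' : 2 / (1 - 3 * bI th e) ≤ 2 / x := by
    rw [hβ]
    exact div_le_div_of_nonneg_left (by norm_num) hx0 (by linarith)
  obtain ⟨X1, h1⟩ := NKd_side θ ε 2 1 0 hθ1 hθ2 hε0 hε2 (by norm_num) (by norm_num) le_rfl B'
  obtain ⟨X2, h2⟩ := NKd_side θ ε (201 / 100) 2 (2 / (1 - 3 * bI th e)) hθ1 hθ2 hε0 hε2
    (by norm_num) (by norm_num) hc3 B'
  obtain ⟨X3, h3⟩ := nkc th e τ hA B' hB ε hε0
  obtain ⟨X4, h4⟩ := nk_one th e τ hA B' hB
  refine ⟨X1 + X2 + X3 + X4, fun X hX n hn1 hn2 => ?_⟩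
  obtain ⟨v1, v2⟩ := h4 X (by omega) n hn1 hn2 _ rfl
  have k1 := h1 X (by omega) (fun T => -rmK τ (bI th e) (lK th τ) (kp B' X) X T) n hn1 hn2 (by
    intro k hk e1 e2 e3
    have := (h3 X (by omega) n k hn1 hn2 hk e1 e2 e3 _ rfl).1
    rw [zero_mul, add_zero, one_mul]
    exact this)
  have k2 := h2 X (by omega) (fun T => epK τ (bI th e) (lK th τ) (kp B' X) X T) n hn1 hn2 (by
    intro k hk e1 e2 e3
    exact (h3 X (by omega) n k hn1 hn2 hk e1 e2 e3 _ rfl).2.1)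
  have k3 := h2 X (by omega) (fun T => spK τ (bI th e) (lK th τ) (kp B' X) X T) n hn1 hn2 (by
    intro k hk e1 e2 e3
    exact (h3 X (by omega) n k hn1 hn2 hk e1 e2 e3 _ rfl).2.2)
  have hneg : gty (kp B' X) X (fun T => -rmK τ (bI th e) (lK th τ) (kp B' X) X T) n =
      - gty (kp B' X) X (rmK τ (bI th e) (lK th τ) (kp B' X) X) n := by
    unfold gty
    rw [if_pos ⟨hn1, hn2⟩, if_pos ⟨hn1, hn2⟩, ← Finset.sum_neg_distrib]
    refine Finset.sum_congr rfl fun k _ => ?_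
    unfold vty
    split_ifs
    · rw [neg_div]
    · rw [zero_div, neg_zero]
  rw [hneg] at k1
  rw [v1] at k1
  rw [v2] at k2
  have v3 : spK τ (bI th e) (lK th τ) (kp B' X) X (insert (bx (kp B' X) (zt X) ((n : ℝ) / (1 : ℕ)))
      (ty (kp B' X) (zt X) 1)) = 1 := by
    unfold spK
    rw [v1, v2, add_zero]
  rw [v3] at k3
  have m1 : 2 / (1 - 3 * bI th e) * (62 / 100 * (1 - 3 * θ) ^ 2 + 2 * ε) ≤ 1242 / 1000 * x := by
    have m2 : 62 / 100 * (1 - 3 * θ) ^ 2 + 2 * ε ≤ 6207 / 10000 * x ^ 2 := by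
      rw [hε]
      linarith
    have m3 : 0 ≤ 62 / 100 * (1 - 3 * θ) ^ 2 + 2 * ε := by positivity
    calc 2 / (1 - 3 * bI th e) * (62 / 100 * (1 - 3 * θ) ^ 2 + 2 * ε)
        ≤ 2 / x * (6207 / 10000 * x ^ 2) := mul_le_mul hc3' m2 m3 (by positivity)
      _ = 12414 / 10000 * x := by
          field_simp
          ring
      _ ≤ 1242 / 1000 * x := by linarith
  have m4 : ε = x ^ 2 / 100000 := hε
  refine ⟨?_, ?_, ?_⟩
  · have : Real.log n * -gty (kp B' X) X (rmK τ (bI th e) (lK th τ) (kp B' X) X) n =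
      -(Real.log n * gty (kp B' X) X (rmK τ (bI th e) (lK th τ) (kp B' X) X) n) := by ring
    rw [this] at k1
    linarith
  · linarith
  · linarith

end Pool.MP_dd84fd_nt.KX
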