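import Pool.Agent.Lib.MP_dd84fd_nt.JX.Main
import Pool.Agent.Lib.MP_dd84fd_nt.KX.KScale
import Pool.Agent.Lib.MP_dd84fd_nt.KX.Fam
import Pool.Agent.Lib.MP_dd84fd_nt.KX.NKd
import Pool.Agent.Lib.MP_dd84fd_nt.IY.CFab

/-!
# Theorem K
-/

set_option autoImplicit false

namespace Pool.MP_dd84fd_nt.KX

open Finset Pool.MP_67663b_nt.Odd Pool.MP_dd84fd_nt.En Pool.MP_dd84fd_nt.E2 Pool.MP_dd84fd_nt.LS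
  Pool.MP_dd84fd_nt.GX Pool.MP_dd84fd_nt.HX

open Classical in
/-- Theorem K -/
theorem fin_k : ∃ C : ℕ, ∀ θ ε : ℝ,
    1 / 4 ≤ θ → θ < 1 / 3 → 0 < ε → ∀ K : ℕ, ∃ X0 : ℕ, ∀ X : ℕ, X0 ≤ X → ∃ D : Finset ℕ,
      (D.card : ℝ) ≤ (Real.log X) ^ C ∧
      (∀ d ∈ D, (Real.log X) ^ K ≤ (d : ℝ) ∧ (d : ℝ) ≤ (X : ℝ) ^ (1 - θ)) ∧
      ∀ P : ℕ → Prop, ∀ _ : DecidablePred P,
        (∀ n, P n → Even n ∧ (∀ d ∈ D, (d : ℝ) ≤ (n : ℝ) ^ (1 - θ) → ¬ d ∣ n) ∧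
          BadK 5 4 θ n) →
        (((Icc 1 X).filter P).card : ℝ) ≤ (X : ℝ) ^ (θ + ε) :=
  finK 5 4 (by norm_num) (by norm_num) Pool.MP_dd84fd_nt.JX.genJ Pool.MP_dd84fd_nt.IY.final_ab
    decFam tyclK bdK numKA

end Pool.MP_dd84fd_nt.KX
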