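import Pool.Agent.Lib.MP_dd84fd_nt.KX.NKa

/-!
# Theorem K, numerics: the sum over one prime (helper88)

With `y = 1 - 3θ`: the sum of `(log p/log X - θ) log n/(p log (n/p))` over `X^θ ≤ p < X^((1-θ)/2)` is at most
`0.62 y²`. Slices `u i = θ + i y/400`, `i < 200`.
-/

set_option autoImplicit false

namespace Pool.MP_dd84fd_nt.KX

open Finset Pool.MP_dd84fd_nt.IY

/-- sum over slices of a set of primes -/
theorem slice_one (K : Finset ℕ) (f : ℕ → ℝ) (N : ℕ) (S : ℕ → Finset ℕ) (W : ℕ → ℝ)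
    (hW : ∀ i, 0 ≤ W i) (h : ∀ k ∈ K, ∃ i ∈ range N, k ∈ S i ∧ f k ≤ W i / (k : ℝ)) :
    ∑ k ∈ K, f k ≤ ∑ i ∈ range N, W i * ∑ t ∈ S i, 1 / (t : ℝ) := by
  classical
  choose! ii hi ht hf using h
  have h1 : ∑ k ∈ K, f k ≤ ∑ k ∈ K, W (ii k) / (k : ℝ) :=
    Finset.sum_le_sum fun k hk' => hf k hk'
  refine h1.trans ?_
  have h2 : ∑ k ∈ K, W (ii k) / (k : ℝ) =
      ∑ x ∈ K.image (fun k => (⟨ii k, k⟩ : (_ : ℕ) × ℕ)), W x.1 / (x.2 : ℝ) := by
    rw [Finset.sum_image]
    intro a ha b hb hab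
    have := Sigma.mk.inj_iff.mp hab
    exact eq_of_heq this.2
  rw [h2]
  have h3 : ∑ i ∈ range N, W i * ∑ t ∈ S i, 1 / (t : ℝ) =
      ∑ x ∈ (range N).sigma S, W x.1 / (x.2 : ℝ) := by
    rw [Finset.sum_sigma]
    refine Finset.sum_congr rfl fun i _ => ?_
    rw [Finset.mul_sum]
    refine Finset.sum_congr rfl fun t _ => ?_
    rw [mul_one_div]
  rw [h3]
  refine Finset.sum_le_sum_of_subset_of_nonneg ?_ fun x _ _ => ?_
  · intro x hx
    obtain ⟨k, hk', rfl⟩ := Finset.mem_image.mp hx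
    exact Finset.mem_sigma.mpr ⟨hi k hk', ht k hk'⟩
  · exact div_nonneg (hW _) (Nat.cast_nonneg _)

/-- weights of the slices -/
noncomputable def wE (δ : ℝ) (i : ℕ) : ℝ :=
  if i < 100 then 536 / 100 * ((i : ℝ) + 1) * δ else 468 / 100 * ((i : ℝ) + 1) * δ

theorem wE_sum (δ : ℝ) : ∑ i ∈ range 200, wE δ i = 97502 * δ := by
  rw [show 200 = 100 + 100 from rfl, Finset.sum_range_add]
  have h1 : ∑ i ∈ range 100, wE δ i = ∑ i ∈ range 100, 536 / 100 * ((i : ℝ) + 1) * δ := by
    refine Finset.sum_congr rfl fun i hi => ?_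
    unfold wE
    rw [if_pos (Finset.mem_range.mp hi)]
  have h2 : ∑ i ∈ range 100, wE δ (100 + i) =
      ∑ i ∈ range 100, 468 / 100 * ((i : ℝ) + 101) * δ := by
    refine Finset.sum_congr rfl fun i hi => ?_
    unfold wE
    rw [if_neg (by omega)]
    push_cast
    ring
  rw [h1, h2, ← Finset.sum_mul, ← Finset.sum_mul, ← Finset.mul_sum, ← Finset.mul_sum,
    Finset.sum_add_distrib, Finset.sum_add_distrib, gauss_real]
  simp only [Finset.sum_const, Finset.card_range, nsmul_eq_mul]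
  norm_num
  ring

/-- **the sum over one prime** -/
theorem E_sum (θ : ℝ) (h1 : 1 / 4 ≤ θ) (h2 : θ < 1 / 3) : ∃ X0 : ℕ, ∀ X : ℕ, X0 ≤ X →
    ∀ n : ℕ, X5 X < n → n ≤ X →
      ∑ p ∈ PS X θ ((1 - θ) / 2), (Real.log p / Real.log X - θ) *
        (Real.log n / (p * Real.log ((n : ℝ) / p))) ≤ 62 / 100 * (1 - 3 * θ) ^ 2 := by
  classical
  set y := 1 - 3 * θ with hy
  have hy0 : 0 < y := by rw [hy]; linarith
  have hy4 : y ≤ 1 / 4 := by rw [hy]; linarith
  set δ := y / 400 with hδ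
  have hδ0 : 0 < δ := by rw [hδ]; positivity
  have hδ1 : δ ≤ 1 / 1600 := by rw [hδ]; linarith
  set ε := δ ^ 2 / 100 with hε
  have hε0 : 0 < ε := by rw [hε]; positivity
  have hεδ : ε ≤ δ / 160000 := by rw [hε]; nlinarith
  have hyδ : y = 400 * δ := by rw [hδ]; ring
  have hθδ : θ = 1 / 3 - 400 / 3 * δ := by linarith
  obtain ⟨X1, hX1⟩ := mp ε hε0
  obtain ⟨X2, hX2⟩ := logn_ge ε hε0
  refine ⟨X1 + X2 + 2, fun X hX n hn1 hn2 => ?_⟩
  obtain ⟨hn3, hn4, hXr, hn5⟩ := hX2 X (by omega) n hn1 hn2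
  have hmp := hX1 X (by omega)
  have hX1' : 1 < X := by omega
  have hL : 0 < Real.log X := Real.log_pos hXr
  set L := Real.log (X : ℝ) with hLd
  set u : ℕ → ℝ := fun i => θ + i * δ with hu
  set S : ℕ → Finset ℕ := fun i => PS X (u i) (u (i + 1)) with hS
  set W : ℕ → ℝ := fun i => if i < 200 then ((i : ℝ) + 1) * δ / (1 - u (i + 1) - ε) else 0 with hW
  have hus : ∀ i, u (i + 1) = u i + δ := by
    intro i
    rw [hu]
    simp only
    push_cast
    ring
  have hu0 : ∀ i, θ ≤ u i := by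
    intro i
    rw [hu]
    simp only
    have : 0 ≤ (i : ℝ) * δ := by positivity
    linarith
  have hu1 : ∀ i, i < 200 → u (i + 1) ≤ (1 - θ) / 2 := by
    intro i hi'
    rw [hu]
    simp only
    have h3 : ((i + 1 : ℕ) : ℝ) ≤ 200 := by exact_mod_cast hi'
    have h4 : ((i + 1 : ℕ) : ℝ) * δ ≤ 200 * δ := mul_le_mul_of_nonneg_right h3 hδ0.le
    linarith
  have hden : ∀ i, i < 200 → 1 / 2 < 1 - u (i + 1) - ε := by
    intro i hi'
    have := hu1 i hi'
    linarith
  have hW0 : ∀ i, 0 ≤ W i := by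
    intro i
    rw [hW]
    simp only
    split_ifs with h3
    · have := hden i h3
      exact div_nonneg (by positivity) (by linarith)
    · exact le_rfl
  -- the slices cover
  have hcov : ∀ p ∈ PS X θ ((1 - θ) / 2), ∃ i ∈ range 200, p ∈ S i ∧
      (Real.log p / L - θ) * (Real.log n / (p * Real.log ((n : ℝ) / p))) ≤ W i / (p : ℝ) := by
    intro p hp'
    obtain ⟨hp, hpX, hpL, hpU⟩ := of_mem_PS hX1' hp'
    rw [← hLd] at hpL hpU
    have hp0 : (0 : ℝ) < p := by exact_mod_cast hp.pos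
    have hn0 : (0 : ℝ) < n := by exact_mod_cast hn5
    have hlc : Real.log ((n : ℝ) / p) = Real.log n - Real.log p :=
      Real.log_div hn0.ne' hp0.ne'
    set a := Real.log p / L with ha
    set N := Real.log n / L with hN
    have haL : a * L = Real.log p := div_mul_cancel₀ _ hL.ne'
    have hNL : N * L = Real.log n := div_mul_cancel₀ _ hL.ne'
    have hN1 : N ≤ 1 := by
      rw [hN, div_le_one hL]
      exact hn4
    have hN2 : 1 - ε ≤ N := by
      rw [hN, le_div_iff₀ hL]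
      exact hn3
    have e3 : θ ≤ a := by
      rw [ha, le_div_iff₀ hL]
      exact hpL
    have e4 : a < (1 - θ) / 2 := by
      rw [ha, div_lt_iff₀ hL]
      exact hpU
    set z : ℝ := (a - θ) / δ with hz
    have hz0 : 0 ≤ z := div_nonneg (by linarith) hδ0.le
    have hz4 : z < 200 := by
      rw [hz, div_lt_iff₀ hδ0]
      linarith
    set i := ⌊z⌋₊ with hi'
    have hi4 : i < 200 := by
      have := Nat.floor_le hz0
      have h3 : (i : ℝ) < 200 := lt_of_le_of_lt this hz4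
      exact_mod_cast h3
    have hia : u i ≤ a := by
      have h3 : (i : ℝ) ≤ z := Nat.floor_le hz0
      rw [hz, le_div_iff₀ hδ0] at h3
      rw [hu]
      simp only
      linarith
    have hib : a < u (i + 1) := by
      have h3 : z < (i : ℝ) + 1 := Nat.lt_floor_add_one z
      rw [hz, div_lt_iff₀ hδ0] at h3
      rw [hu]
      simp only
      push_cast
      linarith
    refine ⟨i, Finset.mem_range.mpr hi4, ?_, ?_⟩
    · rw [hS]
      refine mem_PS hX1' hp hpX ?_ ?_
      · change u i * L ≤ Real.log p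
        rw [← haL]
        exact mul_le_mul_of_nonneg_right hia hL.le
      · change Real.log p < u (i + 1) * L
        rw [← haL]
        exact mul_lt_mul_of_pos_right hib hL
    · have hW' : W i = ((i : ℝ) + 1) * δ / (1 - u (i + 1) - ε) := by
        rw [hW]
        simp only
        rw [if_pos hi4]
      have hd := hden i hi4
      have hc0 : 0 < N - a := by linarith
      have hck : Real.log ((n : ℝ) / p) = (N - a) * L := by
        rw [hlc, sub_mul, hNL, haL]
      have e5 : Real.log n / (p * Real.log ((n : ℝ) / p)) = N / (N - a) / (p : ℝ) := by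
        rw [hck, ← hNL]
        field_simp
      rw [e5, hW', ← mul_div_assoc]
      refine div_le_div_of_nonneg_right ?_ (by positivity)
      have e6 : a - θ ≤ ((i : ℝ) + 1) * δ := by
        have : u (i + 1) = θ + ((i : ℝ) + 1) * δ := by
          rw [hu]
          simp only
          push_cast
          ring
        linarith
      have e7 : N / (N - a) ≤ 1 / (1 - u (i + 1) - ε) := by
        rw [div_le_div_iff₀ hc0 (by linarith)]
        have e8 : N * (1 - u (i + 1) - ε) ≤ N * (1 - a - ε) :=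
          mul_le_mul_of_nonneg_left (by linarith) (by linarith)
        nlinarith
      have e9 : 0 ≤ N / (N - a) := div_nonneg (by linarith) hc0.le
      calc (a - θ) * (N / (N - a)) ≤ ((i : ℝ) + 1) * δ * (1 / (1 - u (i + 1) - ε)) :=
            mul_le_mul e6 e7 e9 (by positivity)
        _ = ((i : ℝ) + 1) * δ / (1 - u (i + 1) - ε) := by rw [mul_one_div]
  -- the bound for one slice
  have hsl : ∀ i ∈ range 200, W i * ∑ t ∈ S i, 1 / (t : ℝ) ≤ wE δ i * (δ + ε) := by
    intro i hi'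
    have hi4 := Finset.mem_range.mp hi'
    have hW' : W i = ((i : ℝ) + 1) * δ / (1 - u (i + 1) - ε) := by
      rw [hW]
      simp only
      rw [if_pos hi4]
    have hd := hden i hi4
    have hui := hu1 i hi4
    have hui0 := hu0 i
    have hs := hus i
    have m1 := hmp (u i) (u (i + 1)) (by linarith) (by linarith)
    rw [hs, show u i + δ - u i = δ by ring, max_eq_right hδ0.le] at m1
    have hui00 : 0 < u i := by linarith
    have m1' : ∑ p ∈ PS X (u i) (u i + δ), 1 / (p : ℝ) ≤ (δ + ε) / u i := by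
      refine m1.trans ?_
      rw [le_div_iff₀ hui00, add_mul, div_mul_cancel₀ _ hui00.ne']
      nlinarith
    have hi0 : (0 : ℝ) ≤ i := Nat.cast_nonneg i
    calc W i * ∑ t ∈ S i, 1 / (t : ℝ) ≤ W i * ((δ + ε) / u i) := by
          refine mul_le_mul_of_nonneg_left ?_ (hW0 i)
          change ∑ t ∈ PS X (u i) (u (i + 1)), 1 / (t : ℝ) ≤ _
          rw [hs]
          exact m1'
      _ = ((i : ℝ) + 1) * δ * (δ + ε) / (u i * (1 - u (i + 1) - ε)) := by
          rw [hW']
          field_simp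
      _ ≤ wE δ i * (δ + ε) := by
          rw [div_le_iff₀ (by positivity)]
          unfold wE
          split_ifs with h3
          · have h4 : (1 : ℝ) ≤ 536 / 100 * (u i * (1 - u (i + 1) - ε)) := by
              rw [hs]
              nlinarith
            have h5 : 0 ≤ ((i : ℝ) + 1) * δ * (δ + ε) := by positivity
            nlinarith
          · have h4 : (1 : ℝ) ≤ 468 / 100 * (u i * (1 - u (i + 1) - ε)) := by
              have e3 : u i = θ + i * δ := rfl
              have e4 : (100 : ℝ) ≤ i := by exact_mod_cast (not_lt.mp h3)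
              have e5 : 100 * δ ≤ (i : ℝ) * δ := mul_le_mul_of_nonneg_right e4 hδ0.le
              have e6 : 5 / 16 ≤ u i := by rw [e3]; linarith
              rw [hs]
              nlinarith
            have h5 : 0 ≤ ((i : ℝ) + 1) * δ * (δ + ε) := by positivity
            nlinarith
  refine (slice_one (PS X θ ((1 - θ) / 2)) _ 200 S W hW0 hcov).trans ?_
  refine (Finset.sum_le_sum hsl).trans ?_
  rw [← Finset.sum_mul, wE_sum, hyδ]
  have f1 : δ + ε ≤ 1001 / 1000 * δ := by linarith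
  have f2 : 97502 * δ * (δ + ε) ≤ 97502 * δ * (1001 / 1000 * δ) :=
    mul_le_mul_of_nonneg_left f1 (by positivity)
  refine f2.trans ?_
  nlinarith [sq_nonneg δ]

/-- the sum without the factor -/
theorem E_one (θ : ℝ) (h1 : 1 / 4 ≤ θ) (h2 : θ < 1 / 3) : ∃ X0 : ℕ, ∀ X : ℕ, X0 ≤ X →
    ∀ n : ℕ, X5 X < n → n ≤ X →
      ∑ p ∈ PS X θ ((1 - θ) / 2), Real.log n / (p * Real.log ((n : ℝ) / p)) ≤ 2 := by
  obtain ⟨X1, hX1⟩ := mp (1 / 100) (by norm_num)
  obtain ⟨X2, hX2⟩ := logn_ge (1 / 100) (by norm_num)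
  refine ⟨X1 + X2 + 2, fun X hX n hn1 hn2 => ?_⟩
  obtain ⟨hn3, hn4, hXr, hn5⟩ := hX2 X (by omega) n hn1 hn2
  have hmp := hX1 X (by omega) θ ((1 - θ) / 2) (by linarith) (by linarith)
  have hX1' : 1 < X := by omega
  have hL : 0 < Real.log X := Real.log_pos hXr
  have hterm : ∀ p ∈ PS X θ ((1 - θ) / 2), Real.log n / (p * Real.log ((n : ℝ) / p)) ≤
      2 * (1 / (p : ℝ)) := by
    intro p hp'
    obtain ⟨hp, hpX, hpL, hpU⟩ := of_mem_PS hX1' hp'
    have hp0 : (0 : ℝ) < p := by exact_mod_cast hp.pos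
    have hn0 : (0 : ℝ) < n := by exact_mod_cast hn5
    have hlc : Real.log ((n : ℝ) / p) = Real.log n - Real.log p :=
      Real.log_div hn0.ne' hp0.ne'
    have h3 : Real.log p ≤ 3 / 8 * Real.log X := by nlinarith
    have h4 : 0 < Real.log n - Real.log p := by nlinarith
    rw [hlc, div_le_iff₀ (mul_pos hp0 h4)]
    have h5 : 2 * (1 / (p : ℝ)) * (p * (Real.log n - Real.log p)) =
        2 * (Real.log n - Real.log p) := by field_simp
    rw [h5]
    nlinarith
  refine (Finset.sum_le_sum hterm).trans ?_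
  rw [← Finset.mul_sum]
  have h6 : max 0 ((1 - θ) / 2 - θ) / θ ≤ 1 / 2 := by
    rw [max_eq_right (by linarith), div_le_iff₀ (by linarith)]
    linarith
  linarith

/-- the primes near `√X` -/
theorem N_one (ε : ℝ) (hε : 0 < ε) (hε2 : ε ≤ 1 / 20) : ∃ X0 : ℕ, ∀ X : ℕ, X0 ≤ X →
    ∀ n : ℕ, X5 X < n → n ≤ X →
      ∑ p ∈ PS X (1 / 2 - ε) (1 / 2 + ε), Real.log n / (p * Real.log ((n : ℝ) / p)) ≤ 20 * ε := by
  obtain ⟨X1, hX1⟩ := mp ε hε
  obtain ⟨X2, hX2⟩ := logn_ge ε hε
  refine ⟨X1 + X2 + 2, fun X hX n hn1 hn2 => ?_⟩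
  obtain ⟨hn3, hn4, hXr, hn5⟩ := hX2 X (by omega) n hn1 hn2
  have hmp := hX1 X (by omega) (1 / 2 - ε) (1 / 2 + ε) (by linarith) (by linarith)
  have hX1' : 1 < X := by omega
  have hL : 0 < Real.log X := Real.log_pos hXr
  have hterm : ∀ p ∈ PS X (1 / 2 - ε) (1 / 2 + ε), Real.log n / (p * Real.log ((n : ℝ) / p)) ≤
      3 * (1 / (p : ℝ)) := by
    intro p hp'
    obtain ⟨hp, hpX, hpL, hpU⟩ := of_mem_PS hX1' hp'
    have hp0 : (0 : ℝ) < p := by exact_mod_cast hp.pos
    have hn0 : (0 : ℝ) < n := by exact_mod_cast hn5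
    have hlc : Real.log ((n : ℝ) / p) = Real.log n - Real.log p :=
      Real.log_div hn0.ne' hp0.ne'
    have h3 : Real.log p ≤ 11 / 20 * Real.log X := by nlinarith
    have h4 : 19 / 20 * Real.log X ≤ Real.log n := by nlinarith
    have h5 : 0 < Real.log n - Real.log p := by linarith
    rw [hlc, div_le_iff₀ (mul_pos hp0 h5)]
    have h6 : 3 * (1 / (p : ℝ)) * (p * (Real.log n - Real.log p)) =
        3 * (Real.log n - Real.log p) := by field_simp
    rw [h6]
    linarith
  refine (Finset.sum_le_sum hterm).trans ?_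
  rw [← Finset.mul_sum]
  have h6 : max 0 (1 / 2 + ε - (1 / 2 - ε)) / (1 / 2 - ε) ≤ 5 * ε := by
    rw [max_eq_right (by linarith), div_le_iff₀ (by linarith)]
    nlinarith
  linarith

end Pool.MP_dd84fd_nt.KX
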