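import Pool.Agent.Lib.MP_dd84fd_nt.KX.Defs

/-!
# Theorem K: `F` = type I + type II (helper63)

`F(n) = Σ_{m k = n} lam(m) rg(k)`; the rough-to-smooth identity is applied with the threshold
`Z = 2 X^α` for the smooth variable alone: type I level `Z X^ℓ`, and in the remaining part the smooth
variable `e` is in `[Z, Z z)`, which lies in the window; the other variable is `n / e`.
-/

set_option autoImplicit false

namespace Pool.MP_dd84fd_nt.KX

open Finset Pool.MP_dd84fd_nt.HX Pool.MP_dd84fd_nt.IY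

open Classical in
theorem smoE_id (z : ℕ) (lam0 : ℕ → ℝ) (Z : ℝ) (hZ1 : 1 < Z) (n : ℕ) (hn : 1 ≤ n)
    (hr : ∀ m, lam0 m ≠ 0 → Rgh z m) :
    ∑ m ∈ n.divisors, lam0 m * rg z (n / m) =
      ∑ l ∈ n.divisors, (if (sm z l : ℝ) < Z then lam0 (ro z l) * mr (sm z l) else 0) +
      TSg z (Ae z lam0 Z) n := by
  have hn0 : n ≠ 0 := by omega
  obtain ⟨g, hg⟩ : ∃ g : ℕ → ℕ → ℝ, g = fun c f : ℕ => lam0 c *
        ((if ((1 : ℕ) : ℝ) * f < Z then mr f else 0) + (if Z ≤ ((1 : ℕ) : ℝ) * f ∧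
          ((1 : ℕ) : ℝ) * f < Z * (f.minFac : ℝ) ∧
          (∀ p ∈ (n / c / f).primeFactors, f.minFac ≤ p)
          then mr f else 0)) := ⟨_, rfl⟩
  have key : ∀ c ∈ n.divisors, lam0 c * rg z (n / c) =
      ∑ f ∈ (n / c).divisors, (if Rgh z c ∧ Smo z f then g c f else 0) := by
    intro c hc
    have hcn : c ∣ n := Nat.dvd_of_mem_divisors hc
    have hc0 : 0 < c := Nat.pos_of_mem_divisors hc
    have hk : n / c ≠ 0 := (Nat.div_pos (Nat.le_of_dvd hn hcn) hc0).ne'
    by_cases h0 : lam0 c = 0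
    · rw [h0, zero_mul]
      symm
      refine sum_eq_zero fun f _ => ?_
      rw [hg]
      simp only
      rw [h0, zero_mul]
      exact ite_self _
    · have hr' := hr c h0
      rw [rg_smo z 1 (n / c) Z (by rw [Nat.cast_one]; exact hZ1) hk, ← sum_add_distrib, mul_sum]
      refine sum_congr rfl fun f _ => ?_
      rw [hg]
      simp only
      by_cases hf : Smo z f
      · simp only [hf, hr', true_and, and_self, if_true]
      · simp only [hf, and_false, false_and, if_false, add_zero, mul_zero]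
  rw [sum_congr rfl key, ts_swap n hn0, TSg, ← sum_add_distrib]
  refine sum_congr rfl fun l hl => ?_
  have hln : l ∣ n := Nat.dvd_of_mem_divisors hl
  have hl0 : l ≠ 0 := (Nat.pos_of_mem_divisors hl).ne'
  rw [ts_one z l hl0 g]
  have h1 := ro_mul_sm z l hl0
  have hdd : n / ro z l / sm z l = n / l := by rw [Nat.div_div_eq_div_mul, h1]
  rw [hg]
  simp only
  rw [hdd, Nat.cast_one, one_mul]
  unfold Ae
  by_cases hZ : (sm z l : ℝ) < Z
  · have hZ' : ¬ Z ≤ (sm z l : ℝ) := not_le.2 hZ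
    rw [if_pos hZ, if_pos hZ, if_neg (fun h => hZ' h.1),
      if_neg (show ¬ (Z ≤ (sm z l : ℝ) ∧ (sm z l : ℝ) < Z * ((sm z l).minFac : ℝ)) from
        fun h => hZ' h.1)]
    simp only [add_zero, ite_self]
  · have hZ' : Z ≤ (sm z l : ℝ) := not_lt.1 hZ
    rw [if_neg hZ, if_neg hZ]
    by_cases hM : (sm z l : ℝ) < Z * ((sm z l).minFac : ℝ)
    · by_cases hP : ∀ p ∈ (n / l).primeFactors, (sm z l).minFac ≤ p
      · rw [if_pos ⟨hZ', hM, hP⟩, if_pos hP, if_pos ⟨hZ', hM⟩]
        ring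
      · rw [if_neg (fun h => hP h.2.2), if_neg hP]
        ring
    · rw [if_neg (fun h => hM h.2.1),
        if_neg (show ¬ (Z ≤ (sm z l : ℝ) ∧ (sm z l : ℝ) < Z * ((sm z l).minFac : ℝ)) from
          fun h => hM h.2)]
      simp only [add_zero, ite_self, mul_zero]

theorem ae_abs {z : ℕ} {lam0 : ℕ → ℝ} {Z : ℝ} (h : ∀ m, |lam0 m| ≤ 2 ^ 13) (l : ℕ) :
    |Ae z lam0 Z l| ≤ 2 ^ 13 := by
  unfold Ae
  split_ifs
  · rw [abs_mul]
    calc |lam0 (ro z l)| * |mr (sm z l)| ≤ 2 ^ 13 * 1 :=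
          mul_le_mul (h _) (mr_le _) (abs_nonneg _) (by norm_num)
      _ = 2 ^ 13 := mul_one _
  · rw [abs_zero]
    norm_num

theorem ae_sm {z : ℕ} {lam0 : ℕ → ℝ} {Z : ℝ} {l : ℕ} (h : Ae z lam0 Z l ≠ 0) :
    sm z l ≠ 1 := by
  intro h1
  apply h
  unfold Ae
  rw [if_neg]
  rintro ⟨h2, h3⟩
  rw [h1, Nat.minFac_one, Nat.cast_one, mul_one] at h3
  rw [h1, Nat.cast_one] at h2
  exact absurd h2 (not_le.2 h3)

open Classical in
/-- the coefficient of the window variable -/
noncomputable def aW (κ Z : ℝ) (z i e : ℕ) : ℝ :=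
  if (Smo z e ∧ Z ≤ (e : ℝ) ∧ (e : ℝ) < Z * (e.minFac : ℝ)) ∧ cl κ e.minFac = i then mr e else 0

open Classical in
/-- the coefficient of the other variable -/
noncomputable def cW (κ : ℝ) (lam0 : ℕ → ℝ) (X i k : ℕ) : ℝ :=
  if k ≤ X then ∑ m ∈ k.divisors, (if ∀ p ∈ (k / m).primeFactors, i ≤ cl κ p then lam0 m else 0)
  else 0

/-- a rough divisor of `k` divides the rough part -/
theorem rgh_dvd_ro {z k m : ℕ} (hk : k ≠ 0) (hm : Rgh z m) (h : m ∣ k) : m ∣ ro z k := by
  have h1 := ro_mul_sm z k hk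
  have h2 : Nat.Coprime m (sm z k) := by
    rw [Nat.coprime_iff_gcd_eq_one]
    by_contra hc
    obtain ⟨p, hp, hpd⟩ := Nat.exists_prime_and_dvd hc
    have hp1 : p ∣ m := hpd.trans (Nat.gcd_dvd_left _ _)
    have hp2 : p ∣ sm z k := hpd.trans (Nat.gcd_dvd_right _ _)
    have h3 := hm.2 p (Nat.mem_primeFactors.2 ⟨hp, hp1, hm.1⟩)
    have h4 := sm_smo z k p (Nat.mem_primeFactors.2 ⟨hp, hp2, (sm_pos z k).ne'⟩)
    omega
  have h3 : m ∣ ro z k * sm z k := by rw [h1]; exact h
  exact h2.dvd_of_dvd_mul_right h3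

theorem cW_abs {κ : ℝ} {lam0 : ℕ → ℝ} {X z : ℕ} (hz : 1 ≤ z) (hX : (X : ℝ) < (z : ℝ) ^ 11)
    (h : ∀ m, |lam0 m| ≤ 2 ^ 13) (hr : ∀ m, lam0 m ≠ 0 → Rgh z m) (i k : ℕ) :
    |cW κ lam0 X i k| ≤ 2 ^ 23 := by
  classical
  unfold cW
  by_cases hk : k ≤ X
  · rw [if_pos hk]
    rcases Nat.eq_zero_or_pos k with rfl | hk0
    · rw [Nat.divisors_zero, Finset.sum_empty, abs_zero]
      norm_num
    · have hk0' : k ≠ 0 := by omega
      refine (Finset.abs_sum_le_sum_abs _ _).trans ?_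
      have h1 : ∀ m ∈ k.divisors,
          |if ∀ p ∈ (k / m).primeFactors, i ≤ cl κ p then lam0 m else 0| ≤
            if m ∈ (ro z k).divisors then (2 : ℝ) ^ 13 else 0 := by
        intro m hm
        by_cases h0 : lam0 m = 0
        · rw [h0, ite_self, abs_zero]
          split_ifs
          · positivity
          · exact le_rfl
        · have hmr : m ∈ (ro z k).divisors := by
            rw [Nat.mem_divisors]
            refine ⟨rgh_dvd_ro hk0' (hr m h0) (Nat.dvd_of_mem_divisors hm), ?_⟩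
            intro hc
            have := ro_mul_sm z k hk0'
            rw [hc, zero_mul] at this
            omega
          rw [if_pos hmr]
          split_ifs
          · exact h m
          · rw [abs_zero]
            positivity
      refine (Finset.sum_le_sum h1).trans ?_
      rw [← Finset.sum_filter, Finset.sum_const, nsmul_eq_mul]
      have h2 : (k.divisors.filter (fun m => m ∈ (ro z k).divisors)).card ≤ 2 ^ 10 := by
        refine (Finset.card_le_card (fun m hm => (mem_filter.1 hm).2)).trans ?_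
        have h3 : ro z k ≤ X := by
          have h4 := ro_mul_sm z k hk0'
          have h5 : ro z k ≤ k := by
            conv_rhs => rw [← h4]
            exact Nat.le_mul_of_pos_right _ (sm_pos z k)
          omega
        exact card_div hz (ro_rgh z k hk0') h3 hX
      have h3 : ((k.divisors.filter (fun m => m ∈ (ro z k).divisors)).card : ℝ) ≤ 2 ^ 10 := by
        exact_mod_cast h2
      nlinarith
  · rw [if_neg hk, abs_zero]
    norm_num

/-- swap of the two summations -/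
theorem ds_swap (n : ℕ) (hn : n ≠ 0) (F : ℕ → ℕ → ℝ) :
    ∑ m ∈ n.divisors, ∑ d ∈ (n / m).divisors, F m d =
      ∑ d ∈ n.divisors, ∑ m ∈ (n / d).divisors, F m d := by
  rw [ts_swap n hn F, ts_swap n hn (fun a b => F b a)]
  refine Finset.sum_congr rfl fun c _ => ?_
  conv_lhs => rw [← Nat.map_swap_divisorsAntidiagonal (n := c), Finset.sum_map]
  rfl

theorem tbE_eq {κ Z : ℝ} {z X J : ℕ} {lam0 : ℕ → ℝ} (hr : ∀ m, lam0 m ≠ 0 → Rgh z m)
    (hJ : ∀ q : ℕ, 1 ≤ q → q ≤ X → cl κ q < J) {n : ℕ} (hn : 1 ≤ n) (hnX : n ≤ X) :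
    TBg κ z (Ae z lam0 Z) n =
      ∑ i ∈ range J, ∑ e ∈ n.divisors, aW κ Z z i e * cW κ lam0 X i (n / e) := by
  classical
  have hn0 : n ≠ 0 := by omega
  -- the right side
  have hR : ∀ e ∈ n.divisors, ∑ i ∈ range J, aW κ Z z i e * cW κ lam0 X i (n / e) =
      ∑ m ∈ (n / e).divisors, (if Rgh z m ∧ Smo z e then
        (if Z ≤ (e : ℝ) ∧ (e : ℝ) < Z * (e.minFac : ℝ) then
          (if ∀ p ∈ (n / (m * e)).primeFactors, cl κ e.minFac ≤ cl κ p then lam0 m * mr e
            else 0) else 0) else 0) := by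
    intro e he
    have hen : e ∣ n := Nat.dvd_of_mem_divisors he
    have he0 : 0 < e := Nat.pos_of_mem_divisors he
    have heX : e ≤ X := (Nat.le_of_dvd hn hen).trans hnX
    have hneX : n / e ≤ X := (Nat.div_le_self n e).trans hnX
    have hmf1 : 1 ≤ e.minFac := Nat.minFac_pos e
    have hmfX : e.minFac ≤ X := (Nat.minFac_le he0).trans heX
    by_cases hc : Smo z e ∧ Z ≤ (e : ℝ) ∧ (e : ℝ) < Z * (e.minFac : ℝ)
    · rw [Finset.sum_eq_single (cl κ e.minFac)]
      · unfold aW cW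
        rw [if_pos ⟨hc, rfl⟩, if_pos hneX, Finset.mul_sum]
        refine Finset.sum_congr rfl fun m hm => ?_
        have hdd : n / e / m = n / (m * e) := by
          rw [Nat.div_div_eq_div_mul, mul_comm]
        rw [hdd]
        by_cases h0 : lam0 m = 0
        · rw [h0]
          simp
        · have hm' := hr m h0
          have a1 : Rgh z m ∧ Smo z e := ⟨hm', hc.1⟩
          by_cases hp : ∀ p ∈ (n / (m * e)).primeFactors, cl κ e.minFac ≤ cl κ p
          · simp only [if_pos hp, if_pos a1, if_pos hc.2]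
            ring
          · simp only [if_neg hp, if_pos a1, if_pos hc.2, mul_zero]
      · intro i _ hi
        unfold aW
        rw [if_neg (fun h => hi h.2.symm), zero_mul]
      · intro h
        exact absurd (mem_range.2 (hJ _ hmf1 hmfX)) h
    · have h1 : ∑ i ∈ range J, aW κ Z z i e * cW κ lam0 X i (n / e) = 0 := by
        refine Finset.sum_eq_zero fun i _ => ?_
        unfold aW
        rw [if_neg (fun h => hc h.1), zero_mul]
      rw [h1]
      symm
      refine Finset.sum_eq_zero fun m _ => ?_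
      by_cases h2 : Rgh z m ∧ Smo z e
      · rw [if_pos h2, if_neg (fun h => hc ⟨h2.2, h⟩)]
      · rw [if_neg h2]
  rw [Finset.sum_comm, Finset.sum_congr rfl hR]
  rw [← ds_swap n hn0 (fun m e => if Rgh z m ∧ Smo z e then
        (if Z ≤ (e : ℝ) ∧ (e : ℝ) < Z * (e.minFac : ℝ) then
          (if ∀ p ∈ (n / (m * e)).primeFactors, cl κ e.minFac ≤ cl κ p then lam0 m * mr e
            else 0) else 0) else 0), ts_swap n hn0]
  unfold TBg
  refine Finset.sum_congr rfl fun l hl => ?_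
  have hl0 : l ≠ 0 := (Nat.pos_of_mem_divisors hl).ne'
  rw [ts_one z l hl0 (fun m e => if Z ≤ (e : ℝ) ∧ (e : ℝ) < Z * (e.minFac : ℝ) then
          (if ∀ p ∈ (n / (m * e)).primeFactors, cl κ e.minFac ≤ cl κ p then lam0 m * mr e
            else 0) else 0)]
  rw [ro_mul_sm z l hl0]
  unfold Ae
  by_cases h1 : ∀ p ∈ (n / l).primeFactors, cl κ (sm z l).minFac ≤ cl κ p
  · rw [if_pos h1]
    by_cases h2 : Z ≤ (sm z l : ℝ) ∧ (sm z l : ℝ) < Z * ((sm z l).minFac : ℝ)
    · rw [if_pos h2, if_pos h2, if_pos h1]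
    · rw [if_neg h2, if_neg h2]
  · rw [if_neg h1]
    split_ifs <;> rfl

end Pool.MP_dd84fd_nt.KX
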